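import Pool.Agent.Lib.MP_af3a4a_an.P1.CHK.Arith

/-!
# Weights and thresholds of the cells of BIGR (council 2, helper28): definitions

Units: `K = k/16`, `K⁻ = km/16`, `ε = 1/R ∈ [e0/1024, e1/1024]`, `1 + μ₁ ∈ [A/512, B/512]`,
`T = (N - K)/R` in units `2^-23`, `l(ε, x) = -log(1 - ε x)/ε` in units `2^-40`; nodes `x = j/32`.
Packed tables: digits in base `X = 2^128`, digit `0` first.
-/

set_option autoImplicit false

namespace Pool.Agent.Lib.MP_af3a4a_an.P1.H28

open Pool.Agent.Lib.MP_af3a4a_an.P1.CHK.Arith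

/-- digit number `j` in base `2^128` -/
def dg (P j : ℕ) : ℕ := (P >>> (128 * j)) % 340282366920938463463374607431768211456

/-! ### the function `l` -/

/-- `∑_{i ≥ 0} t^i/(i+1)` from above, `t = n/2^15` -/
def phU (n : ℕ) : ℕ → ℕ → ℕ
  | 0, h => h
  | i + 1, h => ev (1099511627776 / (i + 1) + (n * h) >>> 15 + 2) fun h => phU n i h

/-- the same from below -/
def phL (n : ℕ) : ℕ → ℕ → ℕ
  | 0, h => h
  | i + 1, h => ev (1099511627776 / (i + 1) + (n * h) >>> 15) fun h => phL n i h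

/-- upper bound of `l(e/1024, j/32)` -/
def lU (e j : ℕ) : ℕ :=
  (j * phU (e * j) 16 (36028797018963968 / (17 * (32768 - e * j)) + 1)) >>> 5 + 1

/-- lower bound of `l(e/1024, j/32)` -/
def lL (e j : ℕ) : ℕ := (j * phL (e * j) 16 64677154575) >>> 5

/-- digits `(l_i + l_{i+1})/2` from above, `i < j`; `pr = lU e j` -/
def hsT (e : ℕ) : ℕ → ℕ → ℕ → ℕ
  | 0, _, acc => acc
  | j + 1, pr, acc => ev (lU e j) fun c =>
      ev (acc * 340282366920938463463374607431768211456 + ((pr + c) >>> 1 + 1)) fun acc =>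
        hsT e j c acc

/-- digits `lL e (a + b i)`, `i < j` -/
def ldT (e a b : ℕ) : ℕ → ℕ → ℕ
  | 0, acc => acc
  | j + 1, acc =>
      ev (acc * 340282366920938463463374607431768211456 + lL e (a + b * j)) fun acc =>
        ldT e a b j acc

/-- the exponent `ga` at the node `x = (9 + k)/8`, scale `2^40` -/
def gaF (e k : ℕ) : ℕ :=
  ev (8 * (128 * (9 + k) - e)) fun P => ev (8192 - e * (9 + k)) fun Q => ev (P * Q) fun PQ =>
    ev (P * P + Q * Q + 4 * PQ) fun D => ev (1048576 - e * e) fun F =>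
      ev (1024 * e * D - 3 * PQ * F) fun Y =>
        bif Nat.beq Y 0 then 0 else ((P * P - Q * Q) * Y) <<< 40 / (PQ * F * D) + 1

/-- digits `gaF e i`, `i < j` -/
def gaT (e : ℕ) : ℕ → ℕ → ℕ
  | 0, acc => acc
  | j + 1, acc =>
      ev (acc * 340282366920938463463374607431768211456 + gaF e j) fun acc => gaT e j acc

/-! ### the cells of `ε` -/

/-- The cells of `ε`. `A e0 e1 HS L1 LD LT nd`: `R ≥ 6`, `nt = 24`, the integral up to `3R/5`,
need `nd/2^40`. `B e0 e1 nt LR HS L1 LD LT GA vt`: the integral up to `1 + nt/8`, `vt` the function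
`N0 ↦` bound of the rest, `LR/2^40 ≤ log R0`. -/
inductive EC
  | nil : EC
  | A (e0 e1 HS L1 LD LT nd : ℕ) (r : EC) : EC
  | B (e0 e1 nt LR HS L1 LD LT GA : ℕ) (vt : ℕ → ℕ) (r : EC) : EC

/-- cell of type `A` -/
def mkA (e0 e1 nd : ℕ) (r : EC) (k : EC → Bool) : Bool :=
  ev (lU e1 32) fun L1 => ev (hsT e1 31 (lU e1 31) 0) fun HS => ev (ldT e0 0 1 32 0) fun LD =>
    ev (ldT e0 32 4 25 0) fun LT =>
      bif Nat.ble e0 e1 && Nat.ble e1 170 then k (EC.A e0 e1 HS L1 LD LT nd r) else false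

/-- `LR/2^40 ≤ log R0`, `R0 = 1024/e1` (`29/12` if `e1 = 424`) -/
def lrOK (e1 LR : ℕ) : Bool :=
  bif Nat.ble 424 e1 then Nat.ble (ep LR * 12) 31885837205504
  else Nat.ble (ep LR * e1) 1125899906842624

/-- cell of type `B` -/
def mkB (e0 e1 nt LR : ℕ) (vt : ℕ → ℕ) (r : EC) (k : EC → Bool) : Bool :=
  ev (lU e1 32) fun L1 => ev (hsT e1 31 (lU e1 31) 0) fun HS => ev (ldT e0 0 1 32 0) fun LD =>
    ev (ldT e0 32 4 (nt + 1) 0) fun LT => ev (gaT e1 nt 0) fun GA =>
      bif Nat.ble e0 e1 && Nat.ble e1 424 && Nat.ble nt 24 && Nat.ble (5 * e1 * (8 + nt)) 24576 &&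
        lrOK e1 LR
      then k (EC.B e0 e1 nt LR HS L1 LD LT GA vt r) else false

/-! ### weights -/

/-- `exp(-m)` from above at scale `2^200` -/
def emX (m : ℕ) : ℕ :=
  ev (m >>> 8) fun t => ev (t * t) fun t2 =>
    (((35076039295941670036888435985190792471742381031424 +
        t2 * (14507109835375550096474112 + t2)) -
      4398046511104 * t * (7253554917687775048237056 + t2)) /
        31901471898837980949691369446728269824 + 1) ^ 256 >>> 10040 + 1

/-- digits `s_i`, `i < j`, from below -/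
def ssT (t HS : ℕ) : ℕ → ℕ → ℕ
  | 0, acc => acc
  | j + 1, acc =>
      ev (acc * 340282366920938463463374607431768211456 + emL ((t * dg HS j) >>> 23 + 1)) fun acc =>
        ssT t HS j acc

/-- `min (em m) 1` -/
def emM (m : ℕ) : ℕ := ev (em m) fun a => a - (a - 1099511627776)

/-- digits `W_i`, `i < j`, from above -/
def wwT (t LD : ℕ) : ℕ → ℕ → ℕ
  | 0, acc => acc
  | j + 1, acc =>
      ev (acc * 340282366920938463463374607431768211456 + emM ((t * dg LD j) >>> 23)) fun acc =>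
        wwT t LD j acc

/-- the tail: sum over the cells `i < j`; `cv` : the weight is convex; `Wn, En` : the values at the
node `j`; `48 · 2^280` times the integral -/
def tlT (k t : ℕ) (cv : Bool) (LT GA EE : ℕ) : ℕ → ℕ → ℕ → ℕ → ℕ
  | 0, _, _, acc => acc
  | j + 1, Wn, En, acc =>
      ev (emX ((t * dg LT j) >>> 23)) fun W => ev (dg EE j) fun E =>
        ev (dg GA j) fun g =>
          ev (bif Nat.beq g 0 then 1099511627776 else ep ((k * g) >>> 4 + 1)) fun g =>
            ev (acc + g * (W * (2 * E + En) + (bif cv then Wn else W) * (2 * En + E))) fun acc =>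
              tlT k t cv LT GA EE j W E acc

/-- the tail from the node `nt` on -/
def tlS (k t : ℕ) (cv : Bool) (LT GA EE nt : ℕ) : ℕ :=
  ev (emX ((t * dg LT nt) >>> 23)) fun W => ev (dg EE nt) fun E => tlT k t cv LT GA EE nt W E 0

/-! ### thresholds -/

/-- `T0` in units `2^-23` -/
def t0F (k km e0 e1 B : ℕ) : ℕ :=
  ev (km <<< 19 - k * e1 * B) fun a => ev (((96 - k) * e0) <<< 9) fun b =>
    ev (16777216 - ((k + 32) * e1) <<< 9) fun c =>
      ev (a + (b - a)) fun a => a + (c - a)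

/-- `T1` in units `2^-23` -/
def t1F (k e0 A : ℕ) : ℕ := k <<< 19 - k * e0 * A

/-- `exp((T1 - T0) l(e1, 1)) (vt + nd)/nf0`, times `32 · 2^80` -/
def ndF (k e0 t t1 L1 v : ℕ) : ℕ :=
  (ep (((t1 - t) * L1) >>> 23 + 1) * v) <<< 28 / (t + ((k + 16) * e0) <<< 9) + 1

/-- upper bound of helper11's `nd N R`, `R = P/Q`, scale `2^40`; `LR/2^40 ≤ log R` -/
def ndU (N P Q LR : ℕ) : ℕ :=
  ev ((Q * N - (P - Q)) ^ N * 1099511627776 / (Q * N) ^ N + 1) fun a =>
    ev (em (N * (P - 2 * Q) * LR / (P - Q))) fun b => (a * b) >>> 40 + 1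

/-- `N0` -/
def n0F (k t e1 : ℕ) : ℕ :=
  ev (((k * e1) <<< 9 + t + (8192 * e1 - 1)) / (8192 * e1)) fun n => 6 + (n - 6)

/-! ### the triples of a column -/

/-- the list of the data of the cells: weights of the positive cells, left and right weights of
the negative cells, threshold -/
inductive CT
  | nil : CT
  | cons (SS WW WB TH : ℕ) (r : CT) : CT

/-- `EL`, `EE`: bounds of `gg^(K/2)` at `31/32` and at the nodes `1 + k/8` (packed) -/
def cellA (k km A B EL EE e0 e1 HS L1 LD LT nd : ℕ) (r : CT) (kk : CT → Bool) : Bool :=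
  ev (t0F k km e0 e1 B) fun t => ev (t1F k e0 A) fun t1 =>
    bif Nat.ble t t1 then
      ev (48 * t - k <<< 23) fun D => ev (t + ((k + 16) * e0) <<< 9) fun nf =>
      bif Nat.ble 1 D && Nat.ble 1 nf then
        ev (ssT t HS 31 0) fun SS => ev (wwT t LD 32 0) fun WW =>
        ev (bif Nat.ble (e1 <<< 13) t then WW >>> 128 else WW) fun WB =>
        ev (tlS k t (Nat.ble (e1 <<< 13) t) LT 0 EE 24) fun S =>
        ev (emX ((t * dg LT 24) >>> 23) * dg EE 24 * 48 / (D <<< 132) + 1) fun rs =>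
        ev (((EL + dg EE 0) * dg WW 31) >>> 1 + 1 + (2 * S / (3 <<< 200) + 1) + rs +
          ndF k e0 t t1 L1 nd) fun TH => kk (CT.cons SS WW WB TH r)
      else false
    else kk r

/-- cells of type `B` -/
def cellB (k km A B EL EE e0 e1 nt LR HS L1 LD LT GA : ℕ) (vt : ℕ → ℕ) (r : CT)
    (kk : CT → Bool) : Bool :=
  ev (t0F k km e0 e1 B) fun t => ev (t1F k e0 A) fun t1 =>
    bif Nat.ble t t1 then
      ev (t + ((k + 16) * e0) <<< 9) fun nf => ev (n0F k t e1) fun N0 =>
      bif Nat.ble 1 nf then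
        ev (ssT t HS 31 0) fun SS => ev (wwT t LD 32 0) fun WW =>
        ev (bif Nat.ble (e1 <<< 13) t then WW >>> 128 else WW) fun WB =>
        ev (tlS k t (Nat.ble (e1 <<< 13) t) LT GA EE nt) fun S =>
        ev (vt N0 + bif Nat.ble 424 e1 then ndU N0 29 12 LR else ndU N0 1024 e1 LR) fun v =>
        ev (((EL + dg EE 0) * dg WW 31) >>> 1 + 1 + (2 * S / (3 <<< 200) + 1) +
          ndF k e0 t t1 L1 v) fun TH => kk (CT.cons SS WW WB TH r)
      else false
    else kk r

/-- all the cells of a column -/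
def cellsK (k km A B EL EE : ℕ) : EC → CT → (CT → Bool) → Bool
  | EC.nil, r, kk => kk r
  | EC.A e0 e1 HS L1 LD LT nd c, r, kk =>
      cellA k km A B EL EE e0 e1 HS L1 LD LT nd r fun r => cellsK k km A B EL EE c r kk
  | EC.B e0 e1 nt LR HS L1 LD LT GA vt c, r, kk =>
      cellB k km A B EL EE e0 e1 nt LR HS L1 LD LT GA vt r fun r => cellsK k km A B EL EE c r kk

/-- the dot product of the digits, one multiplication -/
def dotN (P W J : ℕ) : ℕ := ((P * W) >>> (128 * (J - 1))) % 340282366920938463463374607431768211456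

/-- the test of a leaf -/
def leafT (J0 J1 PP N1 N2 : ℕ) : CT → Bool
  | CT.nil => true
  | CT.cons SS WW WB TH r =>
      bif Nat.ble (dotN N1 (WW >>> (128 * J0)) J1 + dotN N2 (WB >>> (128 * J0)) J1 + TH)
        (dotN PP SS J0) then leafT J0 J1 PP N1 N2 r else false

end Pool.Agent.Lib.MP_af3a4a_an.P1.H28
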