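import Pool.Agent.Lib.MP_af3a4a_an.P1.H32.Pick

/-!
# The cost inequality for `R ≥ 29/12` (council 2, BIGR, module COST, helper28)

`om R w⁻¹ = 2 C/(|R w - 1| + C) ≤ R/(R² - 1) (C + Re (1/w) - 1/R)`, `C = |w - R|`, `|w| ≥ 1`
(true exactly for `R ≥ 1 + √2`).
-/

set_option autoImplicit false

namespace Pool.Agent.Lib.MP_af3a4a_an.P1.H28

open Finset ComplexConjugate
open Pool.Agent.Lib.MP_af3a4a_an.SV (uu av sq EE)
open Pool.Agent.Lib.MP_af3a4a_an.P1.H80
open Pool.Agent.Lib.MP_af3a4a_an.P1.CHK.H80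
open Pool.Agent.Lib.MP_af3a4a_an.P1.H32

/-! ### the polynomial inequality -/

theorem quad_ge {c0 c1 c2 L U r : ℝ} (h2 : c2 ≤ 0) (hL : L ≤ r) (hU : r ≤ U)
    (fL : 0 ≤ c0 + c1 * L + c2 * L ^ 2) (fU : 0 ≤ c0 + c1 * U + c2 * U ^ 2) :
    0 ≤ c0 + c1 * r + c2 * r ^ 2 := by
  rcases eq_or_lt_of_le (hL.trans hU) with h | h
  · have : r = L := le_antisymm (by rw [h]; exact hU) hL
    rw [this]
    exact fL
  · have e : (U - L) * (c0 + c1 * r + c2 * r ^ 2) = (U - r) * (c0 + c1 * L + c2 * L ^ 2) +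
        (r - L) * (c0 + c1 * U + c2 * U ^ 2) + -c2 * ((U - L) * ((r - L) * (U - r))) := by ring
    have h3 : 0 ≤ (U - L) * (c0 + c1 * r + c2 * r ^ 2) := by
      rw [e]
      have a1 := mul_nonneg (sub_nonneg.2 hU) fL
      have a2 := mul_nonneg (sub_nonneg.2 hL) fU
      have a3 := mul_nonneg (neg_nonneg.2 h2) (mul_nonneg (sub_nonneg.2 h.le)
        (mul_nonneg (sub_nonneg.2 hL) (sub_nonneg.2 hU)))
      linarith
    exact nonneg_of_mul_nonneg_right h3 (sub_pos.2 h)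

/-- the quadratic polynomial in `r = A - C`, `p = A + C` -/
noncomputable def FF (R p r : ℝ) : ℝ :=
  (R ^ 2 - 1) * p / 4 * ((2 * (R + 1) - p) * (p - 2 * (R - 1))) +
    (2 * (R ^ 2 - 1) ^ 2 - R * (R ^ 2 - 1) * p - (3 * (R ^ 2 - 1) / 2 + 1) * p ^ 2 + R * p ^ 3) * r +
    -(p * (R * p - 7 * (R ^ 2 - 1) / 4)) * r ^ 2

theorem FF_edge1 (R t : ℝ) : FF R ((R - 1) * (t + 1)) ((R + 1) * (t - 1)) =
    (R ^ 2 - 1) * (2 * t * (R - t) * (R - 1) * (R * t - 1) * (t - 1)) := by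
  unfold FF
  ring

theorem FF_edge2 (R t : ℝ) : FF R ((R + 1) * (t - 1)) ((R - 1) * (t + 1)) =
    (R ^ 2 - 1) * (2 * t * (t - R) * (R + 1) * (R * t ^ 2 - (3 * R - 1) * t + 1)) := by
  unfold FF
  ring

theorem FF_edge3 (R t : ℝ) : FF R ((R + 1) * (t + 1)) ((R - 1) * (t - 1)) =
    (R ^ 2 - 1) * (2 * t * (t + R) * (R + 1) * (R * t + 1) * (t - 1)) := by
  unfold FF
  ring

theorem c1_nonneg {R p : ℝ} (hR : 29 / 12 ≤ R) (hp : 2 * (R - 1) ≤ p) :
    0 ≤ 2 * (R ^ 2 - 1) ^ 2 - R * (R ^ 2 - 1) * p - (3 * (R ^ 2 - 1) / 2 + 1) * p ^ 2 +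
      R * p ^ 3 := by
  obtain ⟨δ, hδ, rfl⟩ : ∃ δ : ℝ, 0 ≤ δ ∧ p = 2 * (R - 1) + δ := ⟨p - 2 * (R - 1), by linarith, by ring⟩
  have e : 2 * (R ^ 2 - 1) ^ 2 - R * (R ^ 2 - 1) * (2 * (R - 1) + δ) -
      (3 * (R ^ 2 - 1) / 2 + 1) * (2 * (R - 1) + δ) ^ 2 + R * (2 * (R - 1) + δ) ^ 3 =
      2 * (R - 1) ^ 3 * (R - 2) + (R - 1) * (5 * R ^ 2 - 13 * R + 2) * δ +
        (9 * R ^ 2 - 12 * R + 1) / 2 * δ ^ 2 + R * δ ^ 3 := by ring
  rw [e]
  have h1 : -(1 / 4) ≤ 5 * R ^ 2 - 13 * R + 2 := by nlinarith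
  have h2 : 12 ≤ (9 * R ^ 2 - 12 * R + 1) / 2 := by nlinarith
  have h3 : 2 * (R - 1) * (5 / 12) ≤ 2 * (R - 1) ^ 3 * (R - 2) := by
    have h4 : 1 ≤ (R - 1) ^ 2 := by nlinarith
    have h5 : (R - 1) * (5 / 12) ≤ (R - 1) * ((R - 1) ^ 2 * (R - 2)) :=
      mul_le_mul_of_nonneg_left (by nlinarith) (by linarith)
    nlinarith
  have h4 : -((R - 1) * (1 / 4) * δ) ≤ (R - 1) * (5 * R ^ 2 - 13 * R + 2) * δ := by
    have := mul_le_mul_of_nonneg_left h1 (show 0 ≤ (R - 1) * δ from mul_nonneg (by linarith) hδ)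
    linarith
  have h5 : 12 * δ ^ 2 ≤ (9 * R ^ 2 - 12 * R + 1) / 2 * δ ^ 2 :=
    mul_le_mul_of_nonneg_right h2 (sq_nonneg _)
  have h6 : 0 ≤ R * δ ^ 3 := by positivity
  -- `(R-1) (5/6 - δ/4) + 12 δ² ≥ 0`, if `δ ≥ 10/3` then the cubic and the slope suffice
  rcases le_total δ (10 / 3) with h | h
  · have h7 : 0 ≤ (R - 1) * (5 / 6 - δ / 4) := mul_nonneg (by linarith) (by linarith)
    nlinarith [sq_nonneg δ]
  · have h7 : (R - 1) * (1 / 4) * δ ≤ R * δ ^ 3 := by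
      have h8 : (R - 1) * (1 / 4) ≤ R * δ ^ 2 := by
        have h9 : 1 ≤ δ ^ 2 := by nlinarith
        have := mul_le_mul_of_nonneg_left h9 (show 0 ≤ R by linarith)
        linarith
      have := mul_le_mul_of_nonneg_right h8 hδ
      nlinarith
    nlinarith [sq_nonneg δ]

theorem FF_nonneg {R p r : ℝ} (hR : 29 / 12 ≤ R) (hr : 0 ≤ r)
    (h1 : 2 * (R ^ 2 - 1) ≤ p * (R + 1) - r * (R - 1))
    (h2 : p * (R - 1) - r * (R + 1) ≤ 2 * (R ^ 2 - 1))
    (h3 : r * (R + 1) - p * (R - 1) ≤ 2 * (R ^ 2 - 1)) : 0 ≤ FF R p r := by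
  have hR1 : 0 < R - 1 := by linarith
  have hR2 : 0 < R + 1 := by linarith
  have hb : 0 < R ^ 2 - 1 := by nlinarith
  have hp : 2 * (R - 1) ≤ p := by
    have h4 : 0 ≤ r * (R - 1) := mul_nonneg hr hR1.le
    have h5 : 2 * (R - 1) * (R + 1) ≤ p * (R + 1) := by linarith
    exact le_of_mul_le_mul_right h5 hR2
  have hp0 : 0 ≤ p := by linarith
  rcases le_total (R * p) (7 * (R ^ 2 - 1) / 4) with hA | hB
  · have hp2 : p ≤ 2 * (R + 1) := by
      have h4 : R * p ≤ R * (2 * (R + 1)) := by nlinarith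
      exact le_of_mul_le_mul_left h4 (by linarith)
    unfold FF
    have a1 : 0 ≤ (R ^ 2 - 1) * p / 4 * ((2 * (R + 1) - p) * (p - 2 * (R - 1))) :=
      mul_nonneg (by positivity) (mul_nonneg (by linarith) (by linarith))
    have a2 := mul_nonneg (c1_nonneg hR hp) hr
    have a3 : 0 ≤ -(p * (R * p - 7 * (R ^ 2 - 1) / 4)) * r ^ 2 :=
      mul_nonneg (by nlinarith) (sq_nonneg _)
    linarith
  · have hc2 : -(p * (R * p - 7 * (R ^ 2 - 1) / 4)) ≤ 0 := by
      have := mul_nonneg hp0 (sub_nonneg.2 hB)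
      linarith
    -- lower end
    obtain ⟨L, hL, fL⟩ : ∃ L : ℝ, L ≤ r ∧ 0 ≤ FF R p L := by
      rcases le_total p (2 * (R + 1)) with h | h
      · refine ⟨0, hr, ?_⟩
        unfold FF
        have a1 : 0 ≤ (R ^ 2 - 1) * p / 4 * ((2 * (R + 1) - p) * (p - 2 * (R - 1))) :=
          mul_nonneg (by positivity) (mul_nonneg (by linarith) (by linarith))
        linarith
      · obtain ⟨t, ht⟩ : ∃ t, t = p / (R + 1) - 1 := ⟨_, rfl⟩
        have hpt : p = (R + 1) * (t + 1) := by rw [ht]; field_simp; ring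
        have ht1 : 1 ≤ t := by
          rw [hpt] at h
          have : 2 * (R + 1) ≤ (t + 1) * (R + 1) := by linarith
          have := le_of_mul_le_mul_right this hR2
          linarith
        refine ⟨(R - 1) * (t - 1), ?_, ?_⟩
        · rw [hpt] at h2
          have h4 : (R - 1) * (t - 1) * (R + 1) ≤ r * (R + 1) := by nlinarith
          exact le_of_mul_le_mul_right h4 hR2
        · rw [hpt, FF_edge3]
          have a1 : 0 ≤ R * t + 1 := by positivity
          have a2 : 0 ≤ t - 1 := by linarith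
          have a3 : 0 ≤ t + R := by linarith
          positivity
    obtain ⟨U, hU, fU⟩ : ∃ U : ℝ, r ≤ U ∧ 0 ≤ FF R p U := by
      rcases le_total p (R ^ 2 - 1) with h | h
      · obtain ⟨t, ht⟩ : ∃ t, t = p / (R - 1) - 1 := ⟨_, rfl⟩
        have hpt : p = (R - 1) * (t + 1) := by rw [ht]; field_simp; ring
        have ht1 : 1 ≤ t := by
          rw [hpt] at hp
          have : 2 * (R - 1) ≤ (t + 1) * (R - 1) := by linarith
          have := le_of_mul_le_mul_right this hR1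
          linarith
        have ht2 : t ≤ R := by
          rw [hpt] at h
          have : (t + 1) * (R - 1) ≤ (R + 1) * (R - 1) := by linarith
          have := le_of_mul_le_mul_right this hR1
          linarith
        refine ⟨(R + 1) * (t - 1), ?_, ?_⟩
        · rw [hpt] at h1
          have h4 : r * (R - 1) ≤ (R + 1) * (t - 1) * (R - 1) := by nlinarith
          exact le_of_mul_le_mul_right h4 hR1
        · rw [hpt, FF_edge1]
          have a1 : 0 ≤ R * t - 1 := by nlinarith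
          have a2 : 0 ≤ t - 1 := by linarith
          have a3 : 0 ≤ R - t := by linarith
          positivity
      · obtain ⟨t, ht⟩ : ∃ t, t = p / (R + 1) + 1 := ⟨_, rfl⟩
        have hpt : p = (R + 1) * (t - 1) := by rw [ht]; field_simp; ring
        have ht2 : R ≤ t := by
          rw [hpt] at h
          have : (R - 1) * (R + 1) ≤ (t - 1) * (R + 1) := by linarith
          have := le_of_mul_le_mul_right this hR2
          linarith
        refine ⟨(R - 1) * (t + 1), ?_, ?_⟩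
        · rw [hpt] at h3
          have h4 : r * (R + 1) ≤ (R - 1) * (t + 1) * (R + 1) := by nlinarith
          exact le_of_mul_le_mul_right h4 hR2
        · rw [hpt, FF_edge2]
          have a1 : 0 ≤ R * t ^ 2 - (3 * R - 1) * t + 1 := by
            obtain ⟨s, hs, rfl⟩ : ∃ s : ℝ, 0 ≤ s ∧ t = R + s := ⟨t - R, by linarith, by ring⟩
            have e : R * (R + s) ^ 2 - (3 * R - 1) * (R + s) + 1 =
                (R - 1) * (R ^ 2 - 2 * R - 1) + (2 * R ^ 2 - 3 * R + 1) * s + R * s ^ 2 := by ring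
            rw [e]
            have b1 : 0 ≤ R ^ 2 - 2 * R - 1 := by nlinarith
            have b2 : 0 ≤ 2 * R ^ 2 - 3 * R + 1 := by nlinarith
            positivity
          have a3 : 0 ≤ t - R := by linarith
          have a4 : 0 ≤ t := by linarith
          positivity
    have h4 := quad_ge (c0 := (R ^ 2 - 1) * p / 4 * ((2 * (R + 1) - p) * (p - 2 * (R - 1))))
      (c1 := 2 * (R ^ 2 - 1) ^ 2 - R * (R ^ 2 - 1) * p - (3 * (R ^ 2 - 1) / 2 + 1) * p ^ 2 +
        R * p ^ 3) hc2 hL hU fL fU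
    exact h4

/-- real form: `A = |R w - 1|`, `C = |w - R|`, `s = |w|²`, `x = Re w` -/
theorem cost_real {R A C s x : ℝ} (hR : 29 / 12 ≤ R) (hA0 : 0 < A) (hC0 : 0 ≤ C) (hs : 1 ≤ s)
    (hA : A ^ 2 = R ^ 2 * s - 2 * R * x + 1) (hC : C ^ 2 = s - 2 * R * x + R ^ 2)
    (h1 : R ^ 2 - 1 ≤ A + R * C) (h2 : R * C ≤ A + (R ^ 2 - 1)) (h3 : A ≤ R * C + (R ^ 2 - 1)) :
    2 * C / (C + A) ≤ R / (R ^ 2 - 1) * (C + x / s - 1 / R) := by
  have hb : 0 < R ^ 2 - 1 := by nlinarith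
  have hR0 : 0 < R := by linarith
  have hs0 : 0 < s := by linarith
  have hpr : (A + C) * (A - C) = (R ^ 2 - 1) * (s - 1) := by nlinarith
  have hr : 0 ≤ A - C := by
    have h4 : 0 ≤ (A + C) * (A - C) := by rw [hpr]; exact mul_nonneg hb.le (by linarith)
    exact nonneg_of_mul_nonneg_right h4 (by linarith)
  have hF := FF_nonneg (p := A + C) (r := A - C) hR hr (by nlinarith) (by nlinarith) (by nlinarith)
  have hse : s = 1 + (A + C) * (A - C) / (R ^ 2 - 1) := by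
    rw [hpr]
    field_simp
    ring
  have hFe : FF R (A + C) (A - C) = (R ^ 2 - 1) * ((A + C) * (2 * R * s * C + R ^ 2 - C ^ 2 - s) -
      4 * (R ^ 2 - 1) * C * s) := by
    have e1 : FF R (A + C) (A - C) = (A + C) * (R * ((A + C) - (A - C)) * ((R ^ 2 - 1) +
        (A + C) * (A - C)) + (R ^ 2 - 1) ^ 2 - (A + C) * (A - C) -
        (R ^ 2 - 1) * ((A + C) - (A - C)) ^ 2 / 4) -
        2 * (R ^ 2 - 1) * ((A + C) - (A - C)) * ((R ^ 2 - 1) + (A + C) * (A - C)) := by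
      unfold FF
      ring
    rw [e1, hpr]
    ring
  rw [hFe] at hF
  have hG := nonneg_of_mul_nonneg_right hF hb
  have hx : 2 * R * x = s + R ^ 2 - C ^ 2 := by linarith
  have e2 : R / (R ^ 2 - 1) * (C + x / s - 1 / R) =
      (2 * R * s * C + R ^ 2 - C ^ 2 - s) / (2 * (R ^ 2 - 1) * s) := by
    have hx' : x = (s + R ^ 2 - C ^ 2) / (2 * R) := by
      rw [eq_div_iff (by positivity)]
      linarith
    rw [hx']
    field_simp
    ring
  rw [e2, div_le_div_iff₀ (by linarith) (by positivity)]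
  nlinarith

/-- **the cost inequality** -/
theorem cost {R : ℝ} (hR : 29 / 12 ≤ R) {w : ℂ} (hw : 1 ≤ ‖w‖) :
    om R w⁻¹ ≤ R / (R ^ 2 - 1) * (‖w - R‖ + (w⁻¹).re - 1 / R) := by
  have hw0 : w ≠ 0 := by
    intro h
    rw [h, norm_zero] at hw
    linarith
  have hR0 : 0 < R := by linarith
  rw [om_inv R hw0]
  have hs : 1 ≤ Complex.normSq w := by
    rw [Complex.normSq_eq_norm_sq]
    nlinarith
  have hinv : (w⁻¹).re = w.re / Complex.normSq w := Complex.inv_re w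
  rw [hinv]
  have hnR : ‖(R : ℂ)‖ = R := by rw [Complex.norm_real, Real.norm_of_nonneg hR0.le]
  have hnb : ‖((R ^ 2 - 1 : ℝ) : ℂ)‖ = R ^ 2 - 1 := by
    rw [Complex.norm_real, Real.norm_of_nonneg (by nlinarith)]
  have hA : ‖(R : ℂ) * w - 1‖ ^ 2 = R ^ 2 * Complex.normSq w - 2 * R * w.re + 1 := by
    rw [← Complex.normSq_eq_norm_sq, Complex.normSq_apply, Complex.normSq_apply]
    simp only [Complex.sub_re, Complex.sub_im, Complex.re_ofReal_mul, Complex.im_ofReal_mul,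
      Complex.one_re, Complex.one_im]
    ring
  have hC : ‖w - (R : ℂ)‖ ^ 2 = Complex.normSq w - 2 * R * w.re + R ^ 2 := by
    rw [← Complex.normSq_eq_norm_sq, Complex.normSq_apply, Complex.normSq_apply]
    simp only [Complex.sub_re, Complex.sub_im, Complex.ofReal_re, Complex.ofReal_im]
    ring
  have hRw : ‖(R : ℂ) * (w - R)‖ = R * ‖w - (R : ℂ)‖ := by rw [norm_mul, hnR]
  have hA0 : 0 < ‖(R : ℂ) * w - 1‖ := by
    have h1 : ‖(R : ℂ) * w‖ ≤ ‖(R : ℂ) * w - 1‖ + 1 := by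
      have := norm_add_le ((R : ℂ) * w - 1) 1
      rwa [sub_add_cancel, norm_one] at this
    rw [norm_mul, hnR] at h1
    nlinarith
  refine cost_real hR hA0 (norm_nonneg _) hs hA hC ?_ ?_ ?_
  · have h := norm_sub_le ((R : ℂ) * w - 1) ((R : ℂ) * (w - R))
    have e : (R : ℂ) * w - 1 - (R : ℂ) * (w - R) = ((R ^ 2 - 1 : ℝ) : ℂ) := by push_cast; ring
    rw [e, hnb, hRw] at h
    exact h
  · have h := norm_sub_le ((R : ℂ) * w - 1) ((R ^ 2 - 1 : ℝ) : ℂ)
    have e : (R : ℂ) * w - 1 - ((R ^ 2 - 1 : ℝ) : ℂ) = (R : ℂ) * (w - R) := by push_cast; ring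
    rw [e, hnb, hRw] at h
    exact h
  · have h := norm_add_le ((R : ℂ) * (w - R)) ((R ^ 2 - 1 : ℝ) : ℂ)
    have e : (R : ℂ) * (w - R) + ((R ^ 2 - 1 : ℝ) : ℂ) = (R : ℂ) * w - 1 := by push_cast; ring
    rw [e, hnb, hRw] at h
    exact h

section cfg

variable {N : ℕ} {z w : Fin N → ℂ} {R : ℝ} {σ : Fin N → ℂ}

/-- **the total cost**: `∑ om R (u k) ≤ N (R - 1 + R m₁)/(R² - 1)` -/
theorem cost_sum (hC : Cfg2 N z w R σ) (hR : 29 / 12 ≤ R) :
    ∑ k, om R (uu w k) ≤ N * (R - 1 + R * (av (uu w)).re) / (R ^ 2 - 1) := by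
  have hN : 1 ≤ N := by linarith [hC.hN]
  have hR0 : 0 < R := by linarith
  have hb : 0 < R ^ 2 - 1 := by nlinarith
  have h1 : ∀ k, om R (uu w k) ≤ R / (R ^ 2 - 1) * (‖w k - R‖ + (uu w k).re - 1 / R) :=
    fun k => cost hR (hC.cfg.far k)
  have h2 : ∑ k, (uu w k).re = N * (av (uu w)).re := by
    have hN0 : (N : ℂ) ≠ 0 := by exact_mod_cast (by omega : N ≠ 0)
    have h3 : ∑ k, uu w k = (N : ℂ) * av (uu w) := by
      unfold av
      rw [← mul_assoc, mul_one_div_cancel hN0, one_mul]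
    have h4 := congrArg Complex.re h3
    rw [Complex.re_sum] at h4
    rw [h4]
    have := Complex.re_ofReal_mul (N : ℝ) (av (uu w))
    push_cast at this
    exact this
  have h3 : ∑ k, om R (uu w k) ≤
      R / (R ^ 2 - 1) * (∑ k, ‖w k - R‖ + N * (av (uu w)).re - N * (1 / R)) := by
    refine (Finset.sum_le_sum fun k _ => h1 k).trans (le_of_eq ?_)
    rw [← Finset.mul_sum, Finset.sum_sub_distrib, Finset.sum_add_distrib, h2]
    simp
  refine h3.trans ?_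
  have h5 : ∑ k, ‖w k - R‖ ≤ N := hC.dist.le
  have h6 : R / (R ^ 2 - 1) * (∑ k, ‖w k - R‖ + N * (av (uu w)).re - N * (1 / R)) ≤
      R / (R ^ 2 - 1) * (N + N * (av (uu w)).re - N * (1 / R)) :=
    mul_le_mul_of_nonneg_left (by linarith) (by positivity)
  refine h6.trans (le_of_eq ?_)
  field_simp
  ring

/-- `N M* ≤ K` iff `N ≤ K (R - Re μ)`, where `K μ = N m - (N - K)/R` -/
theorem mstar_le_iff {N K R m1 μ1 : ℝ} (hR : 1 < R) (hK : K * μ1 = N * m1 - (N - K) / R) :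
    N * (R - 1 + R * m1) / (R ^ 2 - 1) ≤ K ↔ N ≤ K * (R - μ1) := by
  have hb : 0 < R ^ 2 - 1 := by nlinarith
  have hR0 : 0 < R := by linarith
  have h1 : R * (K * μ1) = R * (N * m1) - (N - K) := by
    rw [hK]
    field_simp
  rw [div_le_iff₀ hb]
  constructor
  · intro h
    have h2 : R * N ≤ R * (K * (R - μ1)) := by nlinarith
    exact le_of_mul_le_mul_left h2 hR0
  · intro h
    have h2 := mul_le_mul_of_nonneg_left h hR0.le
    nlinarith

theorem cost_sum_le (hC : Cfg2 N z w R σ) (hR : 29 / 12 ≤ R) {K μ1 : ℝ}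
    (hK : K * μ1 = N * (av (uu w)).re - (N - K) / R) (h : N ≤ K * (R - μ1)) :
    ∑ k, om R (uu w k) ≤ K :=
  (cost_sum hC hR).trans ((mstar_le_iff (by linarith) hK).2 h)

end cfg

end Pool.Agent.Lib.MP_af3a4a_an.P1.H28
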