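import Pool.Agent.Lib.MP_af3a4a_an.P1.H28.CellU
import Pool.Agent.Lib.MP_af3a4a_an.P1.H11.TreeD
import Pool.Agent.Lib.MP_af3a4a_an.P1.H11.GaGlue



/-!
# Soundness of the columns, final interface of CELL (council 2, helper28)
-/

set_option autoImplicit false

namespace Pool.Agent.Lib.MP_af3a4a_an.P1.H28

open Finset MeasureTheory
open Pool.Agent.Lib.MP_af3a4a_an.SV (uu av sq)
open Pool.Agent.Lib.MP_af3a4a_an.P1.H80
open Pool.Agent.Lib.MP_af3a4a_an.P1.CHK.H80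
open Pool.Agent.Lib.MP_af3a4a_an.P1.CHK.Arith
open Pool.Agent.Lib.MP_af3a4a_an.P1.CHK.CurveK
open Pool.Agent.Lib.MP_af3a4a_an.P1.H32
open Pool.Agent.Lib.MP_af3a4a_an.P1.H11

/-- the test of `k`, `km`: `K ≤ 6` or `K⁻ ≥ 4K/5` -/
def kOK (k km : ℕ) : Bool :=
  Nat.ble 16 k && Nat.ble km k && (Nat.ble k 96 || Nat.ble (4 * k) (5 * km))

section

variable {k km A B e0 e1 N : ℕ} {z w : Fin N → ℂ} {R : ℝ} {σ : Fin N → ℂ}

theorem kOK_spec (h : kOK k km = true) :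
    16 ≤ k ∧ km ≤ k ∧ (k ≤ 96 ∨ 4 * k ≤ 5 * km) := by
  unfold kOK at h
  rw [Bool.and_eq_true, Bool.and_eq_true, Bool.or_eq_true] at h
  obtain ⟨⟨h1, h2⟩, h3⟩ := h
  refine ⟨Nat.le_of_ble_eq_true h1, Nat.le_of_ble_eq_true h2, ?_⟩
  rcases h3 with h3 | h3
  · exact Or.inl (Nat.le_of_ble_eq_true h3)
  · exact Or.inr (Nat.le_of_ble_eq_true h3)

/-- `K ≤ N` -/
theorem KN_of (hk : kOK k km = true) (H : InC k km e0 e1 A B z w R σ) : (k : ℝ) / 16 ≤ N := by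
  obtain ⟨h16, -, h3⟩ := kOK_spec hk
  have hN6 := H.h6
  have hR := H.hR
  have hRp : 0 < R := by linarith
  have hN6r : (6 : ℝ) ≤ N := by exact_mod_cast hN6
  rcases h3 with h3 | h3
  · have : (k : ℝ) ≤ 96 := by exact_mod_cast h3
    linarith
  · by_contra hcon
    push Not at hcon
    have h16r : (16 : ℝ) ≤ k := by exact_mod_cast h16
    have h3r : 4 * ((k : ℝ) / 16) ≤ 5 * ((km : ℝ) / 16) := by
      have h6 : ((4 * k : ℕ) : ℝ) ≤ ((5 * km : ℕ) : ℝ) := by exact_mod_cast h3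
      push_cast at h6
      linarith
    have hK0 : (k : ℝ) / 16 ≠ 0 := by linarith
    have hm := muR_mul (N := N) (u := uu w) (R := R) hK0
    have h0 := H.hN0
    have hm1 : (av (uu w)).re ≤ 1 := (Complex.re_le_norm _).trans H.hC.av_le
    have e0 : (k : ℝ) / 16 * ((muR ((k : ℝ) / 16) R (uu w)).re - 1 / R) =
        (k : ℝ) / 16 * (muR ((k : ℝ) / 16) R (uu w)).re - (k : ℝ) / 16 * (1 / R) := by ring
    rw [e0, hm] at h0
    have hε : 0 < 1 / R := by positivity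
    have hε1 : 1 / R < 1 := by
      rw [div_lt_one hRp]
      linarith
    have e1 : ((N : ℝ) - (k : ℝ) / 16) / R = N * (1 / R) - (k : ℝ) / 16 * (1 / R) := by ring
    rw [e1] at h0
    set K : ℝ := (k : ℝ) / 16 with hK
    set Km : ℝ := (km : ℝ) / 16 with hKm
    have hKp : 0 < K := by rw [hK]; linarith
    have h6 : Km * (R - 1 / R) ≤ N * (1 + (av (uu w)).re - 1 / R) := by linarith
    have h7 : (N : ℝ) * (1 + (av (uu w)).re - 1 / R) ≤ N * (2 - 1 / R) :=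
      mul_le_mul_of_nonneg_left (by linarith) (by linarith)
    have h8 : (N : ℝ) * (2 - 1 / R) ≤ K * (2 - 1 / R) :=
      mul_le_mul_of_nonneg_right hcon.le (by linarith)
    have h9 : 4 * K * (R - 1 / R) ≤ 5 * Km * (R - 1 / R) :=
      mul_le_mul_of_nonneg_right h3r (by linarith)
    have h10 : K * (4 * (R - 1 / R)) ≤ K * (5 * (2 - 1 / R)) := by linarith
    have h11 := le_of_mul_le_mul_left h10 hKp
    have h12 : 4 * R + 1 / R ≤ 10 := by linarith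
    have h13 : (4 * R + 1 / R) * R ≤ 10 * R := mul_le_mul_of_nonneg_right h12 hRp.le
    rw [add_mul, div_mul_cancel₀ _ hRp.ne'] at h13
    nlinarith

theorem colH_of (hk : kOK k km = true) (H : InC k km e0 e1 A B z w R σ) :
    ColH k km A B N z w R σ := by
  obtain ⟨h16, hkm, -⟩ := kOK_spec hk
  exact ⟨H.hC, H.h6, H.hR, h16, hkm, KN_of hk H, H.hA, H.hB, H.hN1, H.hN0⟩

/-! ### lists of cells -/

/-- an entry with the property `P` -/
def CT.Ex (P : ℕ → ℕ → ℕ → ℕ → Prop) : CT → Prop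
  | CT.nil => False
  | CT.cons SS WW WB TH r => P SS WW WB TH ∨ r.Ex P

/-- the entry excludes the configuration -/
def KillP (k N : ℕ) (w : Fin N → ℂ) (R : ℝ) (SS WW WB TH : ℕ) : Prop :=
  ∀ (φ : ℝ) (J0 J1 : ℕ) (p n1 n2 : ℕ → ℕ),
    LeafH (QR ((k : ℝ) / 16) R (uu w)) φ J0 J1 p n1 n2 →
    Nat.ble (dotN (HN n1 J1) (WW >>> (128 * J0)) J1 + dotN (HN n2 J1) (WB >>> (128 * J0)) J1 + TH)
      (dotN (HN p J0) SS J0) = true → False

theorem leafT_kill {ct : CT} (h : ct.Ex (KillP k N w R)) {φ : ℝ} {J0 J1 : ℕ} {p n1 n2 : ℕ → ℕ}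
    (hL : LeafH (QR ((k : ℝ) / 16) R (uu w)) φ J0 J1 p n1 n2)
    (ht : leafT J0 J1 (HN p J0) (HN n1 J1) (HN n2 J1) ct = true) : False := by
  induction ct with
  | nil => exact h
  | cons SS WW WB TH r ih =>
    unfold leafT at ht
    cases hb : Nat.ble (dotN (HN n1 J1) (WW >>> (128 * J0)) J1 +
        dotN (HN n2 J1) (WB >>> (128 * J0)) J1 + TH) (dotN (HN p J0) SS J0) with
    | true =>
      rw [hb, cond_true] at ht
      rcases h with h | h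
      · exact h φ J0 J1 p n1 n2 hL hb
      · exact ih h ht
    | false =>
      rw [hb, cond_false] at ht
      exact Bool.noConfusion ht

/-- the need of a cell of type `A` -/
def NeedA (nd e0 e1 : ℕ) : Prop :=
  ∀ (N : ℕ) (z w : Fin N → ℂ) (R : ℝ) (σ : Fin N → ℂ), Cfg2 N z w R σ → 6 ≤ N → 29 / 12 ≤ R →
    (e0 : ℝ) / 1024 ≤ 1 / R → 1 / R ≤ (e1 : ℝ) / 1024 →
    ((N : ℝ) + 1) / R * ‖∫ x in (0 : ℝ)..(3 / 5 * R), qq (uu w) x‖ < (nd : ℝ) / 2 ^ 40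

/-- the rest of a cell of type `B` -/
def VtB (vt : ℕ → ℕ) (e0 e1 nt : ℕ) : Prop :=
  ∀ (N0 N : ℕ) (z w : Fin N → ℂ) (R : ℝ) (σ : Fin N → ℂ), 6 ≤ N0 → Cfg2 N z w R σ →
    N0 ≤ N → 29 / 12 ≤ R → (e0 : ℝ) / 1024 ≤ 1 / R → 1 / R ≤ (e1 : ℝ) / 1024 →
    1 + (nt : ℝ) / 8 ≤ R →
    ((N : ℝ) + 1) / R * ∫ x in (1 + (nt : ℝ) / 8)..R, ‖qq (uu w) x‖ ≤ (vt N0 : ℝ) / 2 ^ 40

/-- validity of a list of cells, which covers `[a/1024, b/1024]` -/
def ECok : EC → ℕ → ℕ → Prop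
  | EC.nil, a, b => a = b
  | EC.A e0 e1 HS L1 LD LT nd r, a, b => b = e1 ∧ ECok r a e0 ∧ e1 ≤ 170 ∧
      HS = PK (hsD e1) 31 ∧ L1 = lU e1 32 ∧ LD = PK (fun i => lL e0 i) 32 ∧
      LT = PK (fun i => lL e0 (32 + 4 * i)) 25 ∧ NeedA nd e0 e1
  | EC.B e0 e1 nt LR HS L1 LD LT GA vt r, a, b => b = e1 ∧ ECok r a e0 ∧ e1 ≤ 424 ∧ nt ≤ 24 ∧
      5 * e1 * (8 + nt) ≤ 24576 ∧ lrOK e1 LR = true ∧
      HS = PK (hsD e1) 31 ∧ L1 = lU e1 32 ∧ LD = PK (fun i => lL e0 i) 32 ∧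
      LT = PK (fun i => lL e0 (32 + 4 * i)) (nt + 1) ∧ GA = PK (gaF e1) nt ∧ VtB vt e0 e1 nt

theorem mkA_sound {e0 e1 nd ea : ℕ} {r : EC} {kk : EC → Bool} (hr : ECok r ea e0)
    (hnd : NeedA nd e0 e1) (h : mkA e0 e1 nd r kk = true) : ∃ ec, ECok ec ea e1 ∧ kk ec = true := by
  unfold mkA at h
  simp only [ev_eq] at h
  cases hb : (Nat.ble e0 e1 && Nat.ble e1 170) with
  | true =>
    rw [hb, cond_true] at h
    rw [Bool.and_eq_true] at hb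
    refine ⟨_, ?_, h⟩
    refine ⟨rfl, hr, Nat.le_of_ble_eq_true hb.2, ?_, rfl, ?_, ?_, hnd⟩
    · rw [hsT_eq, Nat.zero_mul, Nat.add_zero]
    · rw [ldT_eq, Nat.zero_mul, Nat.add_zero]
      simp only [Nat.zero_add, Nat.one_mul]
    · rw [ldT_eq, Nat.zero_mul, Nat.add_zero]
  | false =>
    rw [hb, cond_false] at h
    exact Bool.noConfusion h

theorem mkB_sound {e0 e1 nt LR ea : ℕ} {vt : ℕ → ℕ} {r : EC} {kk : EC → Bool} (hr : ECok r ea e0)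
    (hvt : VtB vt e0 e1 nt) (h : mkB e0 e1 nt LR vt r kk = true) :
    ∃ ec, ECok ec ea e1 ∧ kk ec = true := by
  unfold mkB at h
  simp only [ev_eq] at h
  cases hb : (Nat.ble e0 e1 && Nat.ble e1 424 && Nat.ble nt 24 &&
      Nat.ble (5 * e1 * (8 + nt)) 24576 && lrOK e1 LR) with
  | true =>
    rw [hb, cond_true] at h
    rw [Bool.and_eq_true, Bool.and_eq_true, Bool.and_eq_true, Bool.and_eq_true] at hb
    obtain ⟨⟨⟨⟨-, h1⟩, h2⟩, h3⟩, h4⟩ := hb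
    refine ⟨_, ?_, h⟩
    refine ⟨rfl, hr, Nat.le_of_ble_eq_true h1, Nat.le_of_ble_eq_true h2,
      Nat.le_of_ble_eq_true h3, h4, ?_, rfl, ?_, ?_, ?_, hvt⟩
    · rw [hsT_eq, Nat.zero_mul, Nat.add_zero]
    · rw [ldT_eq, Nat.zero_mul, Nat.add_zero]
      simp only [Nat.zero_add, Nat.one_mul]
    · rw [ldT_eq, Nat.zero_mul, Nat.add_zero]
    · rw [gaT_eq, Nat.zero_mul, Nat.add_zero]
  | false =>
    rw [hb, cond_false] at h
    exact Bool.noConfusion h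

/-- the bounds of `gg^(K/2)` of a column -/
structure EOK (k A EL EE : ℕ) : Prop where
  hEL : ∀ m : ℝ, (A : ℝ) / 512 - 1 ≤ m → |m| ≤ 1 → EK ((k : ℝ) / 16) m (31 / 32) ≤ (EL : ℝ) / 2 ^ 40
  hEE : ∀ i : ℕ, i ≤ 24 → ∀ m : ℝ, (A : ℝ) / 512 - 1 ≤ m → |m| ≤ 1 →
    EK ((k : ℝ) / 16) m (1 + (i : ℝ) / 8) ≤ (dg EE i : ℝ) / 2 ^ 40

theorem EOK.l {EL EE : ℕ} (hE : EOK k A EL EE) (H : ColH k km A B N z w R σ) :
    GK ((k : ℝ) / 16) (muR ((k : ℝ) / 16) R (uu w)).re (xn 31) ≤ (EL : ℝ) / 2 ^ 40 := by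
  have h := hE.hEL _ (by linarith [H.hA]) H.mu_abs
  rw [EK_rpow (gg_nonneg' H.mu_abs)] at h
  have e : xn 31 = 31 / 32 := by unfold xn; norm_num
  unfold GK
  rw [e]
  exact h

theorem EOK.e {EL EE : ℕ} (hE : EOK k A EL EE) (H : ColH k km A B N z w R σ) :
    ∀ i : ℕ, i ≤ 24 → GK ((k : ℝ) / 16) (muR ((k : ℝ) / 16) R (uu w)).re (Xn i) ≤ rE EE i := by
  intro i hi
  have h := hE.hEE i hi _ (by linarith [H.hA]) H.mu_abs
  rw [EK_rpow (gg_nonneg' H.mu_abs)] at h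
  exact h

theorem tTail (H : ColH k km A B N z w R σ) :
    TailQ (qq (uu w)) N ((k : ℝ) / 16) R (muR ((k : ℝ) / 16) R (uu w)).re := by
  have h16 : (16 : ℝ) ≤ k := by exact_mod_cast H.hk
  exact tailQ_of H.cfg H.hR (by linarith) H.hK1

theorem killA {EL EE HS LD LT nd t t1 TH D : ℕ} {cv : Bool} (HC : ColH k km A B N z w R σ)
    (hE : EOK k A EL EE) (hEps : EpsH R e0 e1 HS LD) (h170 : e1 ≤ 170)
    (hLT : LT = PK (fun i => lL e0 (32 + 4 * i)) 25)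
    (hcv : cv = Nat.ble (e1 <<< 13) t)
    (ht : (t : ℝ) / 2 ^ 23 ≤ TT k N R) (ht1 : TT k N R ≤ (t1 : ℝ) / 2 ^ 23)
    (hD : D = 48 * t - k <<< 23) (hD1 : 1 ≤ D) (hnf : 1 ≤ t + ((k + 16) * e0) <<< 9)
    (hnd : ((N : ℝ) + 1) / R * ‖∫ x in (0 : ℝ)..(3 / 5 * R), qq (uu w) x‖ < (nd : ℝ) / 2 ^ 40)
    (hTH : TH = TA EL EE (wa t LD 31) + TL (tlS k t cv LT 0 EE 24) +
      TR (Wx t LT 24) (dg EE 24) D + ndF k e0 t t1 (lU e1 32) nd) :
    KillP k N w R (PK (ssD t HS) 31) (PK (wwD t LD) 32)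
      (bif cv then PK (wwD t LD) 32 >>> 128 else PK (wwD t LD) 32) TH := by
  intro φ J0 J1 p n1 n2 hL hd
  exact cellA_false HC hEps h170 hcv (tTail HC) hLT ht ht1 hD hD1 hnf (hE.l HC) (hE.e HC) hnd hTH hL
    (dots hL hd)

theorem killB {EL EE HS LD LT GA nt LR t t1 TH V U : ℕ} {cv : Bool}
    (HC : ColH k km A B N z w R σ)
    (hE : EOK k A EL EE) (hEps : EpsH R e0 e1 HS LD) (hnt : nt ≤ 24)
    (h5 : 5 * e1 * (8 + nt) ≤ 24576) (hLR : lrOK e1 LR = true)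
    (hLT : LT = PK (fun i => lL e0 (32 + 4 * i)) (nt + 1)) (hGA : GA = PK (gaF e1) nt)
    (hcv : cv = Nat.ble (e1 <<< 13) t)
    (ht0 : t = t0F k km e0 e1 B) (ht1 : TT k N R ≤ (t1 : ℝ) / 2 ^ 23)
    (hnf : 1 ≤ t + ((k + 16) * e0) <<< 9)
    (hvt : ((N : ℝ) + 1) / R * ∫ x in (Xn nt)..R, ‖qq (uu w) x‖ ≤ (V : ℝ) / 2 ^ 40)
    (hU : U = bif Nat.ble 424 e1 then ndU (n0F k t e1) 29 12 LR
        else ndU (n0F k t e1) 1024 e1 LR)
    (hTH : TH = TA EL EE (wa t LD 31) + TL (tlS k t cv LT GA EE nt) +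
      ndF k e0 t t1 (lU e1 32) (V + U)) :
    KillP k N w R (PK (ssD t HS) 31) (PK (wwD t LD) 32)
      (bif cv then PK (wwD t LD) 32 >>> 128 else PK (wwD t LD) 32) TH := by
  intro φ J0 J1 p n1 n2 hL hd
  exact cellB_false HC hEps hcv (tTail HC) hnt h5 hLR hLT hGA ht0 ht1 hnf (hE.l HC) (hE.e HC) hvt hU
    hTH hL (dots hL hd)

theorem TH_A (k EL EE e0 t t1 LD LT L1 nd D : ℕ) (cv : Bool) :
    ((EL + dg EE 0) * dg (PK (wwD t LD) 32) 31) >>> 1 + 1 +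
      (2 * tlS k t cv LT 0 EE 24 / (3 <<< 200) + 1) +
      (emX ((t * dg LT 24) >>> 23) * dg EE 24 * 48 / (D <<< 132) + 1) + ndF k e0 t t1 L1 nd =
    TA EL EE (wa t LD 31) + TL (tlS k t cv LT 0 EE 24) + TR (Wx t LT 24) (dg EE 24) D +
      ndF k e0 t t1 L1 nd := by
  rw [dg31]
  unfold TA TL TR Wx
  rfl

theorem TH_B (k EL EE e0 t t1 LD LT GA nt L1 v : ℕ) (cv : Bool) :
    ((EL + dg EE 0) * dg (PK (wwD t LD) 32) 31) >>> 1 + 1 +
      (2 * tlS k t cv LT GA EE nt / (3 <<< 200) + 1) + ndF k e0 t t1 L1 v =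
    TA EL EE (wa t LD 31) + TL (tlS k t cv LT GA EE nt) + ndF k e0 t t1 L1 v := by
  rw [dg31]
  unfold TA TL
  rfl

theorem Xn_le_R {R : ℝ} {e1 nt : ℕ} (hR : 29 / 12 ≤ R) (he : 1 / R ≤ (e1 : ℝ) / 1024)
    (h5 : 5 * e1 * (8 + nt) ≤ 24576) : Xn nt ≤ R := by
  have hRp : 0 < R := by linarith
  have he1r : (0 : ℝ) < e1 := by
    have h1 : (0 : ℝ) < (e1 : ℝ) / 1024 := lt_of_lt_of_le (by positivity) he
    linarith
  have h1 : ((5 * e1 * (8 + nt) : ℕ) : ℝ) ≤ ((24576 : ℕ) : ℝ) := by exact_mod_cast h5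
  push_cast at h1
  rw [div_le_div_iff₀ hRp (by norm_num)] at he
  unfold Xn
  have h3 : (e1 : ℝ) * (5 * (8 + nt)) ≤ e1 * (24 * R) := by nlinarith
  have h4 := le_of_mul_le_mul_left h3 he1r
  linarith

/-- soundness of `cellA` -/
theorem cellA_sound {EL EE HS L1 LD LT nd : ℕ} {r : CT} {kk : CT → Bool} (hk : kOK k km = true)
    (hE : EOK k A EL EE) (h170 : e1 ≤ 170) (hHS : HS = PK (hsD e1) 31) (hL1 : L1 = lU e1 32)
    (hLD : LD = PK (fun i => lL e0 i) 32) (hLT : LT = PK (fun i => lL e0 (32 + 4 * i)) 25)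
    (hnd : NeedA nd e0 e1) (h : cellA k km A B EL EE e0 e1 HS L1 LD LT nd r kk = true) :
    ∃ ct, kk ct = true ∧ (∀ P, r.Ex P → ct.Ex P) ∧
      ∀ (N : ℕ) (z w : Fin N → ℂ) (R : ℝ) (σ : Fin N → ℂ), InC k km e0 e1 A B z w R σ →
        ct.Ex (KillP k N w R) := by
  unfold cellA at h
  rw [ev_eq, ev_eq] at h
  cases hb : Nat.ble (t0F k km e0 e1 B) (t1F k e0 A) with
  | false =>
    rw [hb, cond_false] at h
    refine ⟨r, h, fun _ h => h, ?_⟩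
    intro N z w R σ H
    exfalso
    have HC := colH_of hk H
    have h1 := (HC.t0_le H.he0 H.he1).trans (HC.le_t1 H.he0)
    rw [div_le_div_iff_of_pos_right (by positivity)] at h1
    have h2 : t0F k km e0 e1 B ≤ t1F k e0 A := by exact_mod_cast h1
    rw [Nat.ble_eq_true_of_le h2] at hb
    exact Bool.noConfusion hb
  | true =>
    rw [hb, cond_true, ev_eq, ev_eq] at h
    cases hc : (Nat.ble 1 (48 * t0F k km e0 e1 B - k <<< 23) &&
        Nat.ble 1 (t0F k km e0 e1 B + ((k + 16) * e0) <<< 9)) with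
    | false =>
      rw [hc, cond_false] at h
      exact Bool.noConfusion h
    | true =>
      rw [hc, cond_true] at h
      simp only [ev_eq] at h
      rw [Bool.and_eq_true] at hc
      have hc1 := Nat.le_of_ble_eq_true hc.1
      have hc2 := Nat.le_of_ble_eq_true hc.2
      refine ⟨_, h, fun _ h => Or.inr h, ?_⟩
      intro N z w R σ H
      have HC := colH_of hk H
      left
      have hEps : EpsH R e0 e1 HS LD := ⟨H.he0, H.he1, h170.trans (by norm_num), hHS, hLD⟩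
      have ht := HC.t0_le H.he0 H.he1
      have ht1 := HC.le_t1 H.he0
      have hnd' := hnd N z w R σ H.hC H.h6 H.hR H.he0 H.he1
      rw [ssT_eq, Nat.zero_mul, Nat.add_zero, wwT_eq, Nat.zero_mul, Nat.add_zero, hL1]
      generalize t0F k km e0 e1 B = t at ht hc1 hc2 ⊢
      generalize t1F k e0 A = t1 at ht1 ⊢
      exact killA HC hE hEps h170 hLT rfl ht ht1 rfl hc1 hc2 hnd' (TH_A ..)

/-- soundness of `cellB` -/
theorem cellB_sound {EL EE HS L1 LD LT GA nt LR : ℕ} {vt : ℕ → ℕ} {r : CT} {kk : CT → Bool}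
    (hk : kOK k km = true) (hE : EOK k A EL EE) (h424 : e1 ≤ 424) (hnt : nt ≤ 24)
    (h5 : 5 * e1 * (8 + nt) ≤ 24576) (hLR : lrOK e1 LR = true)
    (hHS : HS = PK (hsD e1) 31) (hL1 : L1 = lU e1 32)
    (hLD : LD = PK (fun i => lL e0 i) 32) (hLT : LT = PK (fun i => lL e0 (32 + 4 * i)) (nt + 1))
    (hGA : GA = PK (gaF e1) nt) (hvt : VtB vt e0 e1 nt)
    (h : cellB k km A B EL EE e0 e1 nt LR HS L1 LD LT GA vt r kk = true) :
    ∃ ct, kk ct = true ∧ (∀ P, r.Ex P → ct.Ex P) ∧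
      ∀ (N : ℕ) (z w : Fin N → ℂ) (R : ℝ) (σ : Fin N → ℂ), InC k km e0 e1 A B z w R σ →
        ct.Ex (KillP k N w R) := by
  unfold cellB at h
  rw [ev_eq, ev_eq] at h
  cases hb : Nat.ble (t0F k km e0 e1 B) (t1F k e0 A) with
  | false =>
    rw [hb, cond_false] at h
    refine ⟨r, h, fun _ h => h, ?_⟩
    intro N z w R σ H
    exfalso
    have HC := colH_of hk H
    have h1 := (HC.t0_le H.he0 H.he1).trans (HC.le_t1 H.he0)
    rw [div_le_div_iff_of_pos_right (by positivity)] at h1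
    have h2 : t0F k km e0 e1 B ≤ t1F k e0 A := by exact_mod_cast h1
    rw [Nat.ble_eq_true_of_le h2] at hb
    exact Bool.noConfusion hb
  | true =>
    rw [hb, cond_true, ev_eq, ev_eq] at h
    cases hc : Nat.ble 1 (t0F k km e0 e1 B + ((k + 16) * e0) <<< 9) with
    | false =>
      rw [hc, cond_false] at h
      exact Bool.noConfusion h
    | true =>
      rw [hc, cond_true] at h
      simp only [ev_eq] at h
      have hc2 := Nat.le_of_ble_eq_true hc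
      refine ⟨_, h, fun _ h => Or.inr h, ?_⟩
      intro N z w R σ H
      have HC := colH_of hk H
      left
      have hEps : EpsH R e0 e1 HS LD := ⟨H.he0, H.he1, h424, hHS, hLD⟩
      have hN06 : 6 ≤ n0F k (t0F k km e0 e1 B) e1 := by
        unfold n0F
        rw [ev_eq]
        omega
      have hXR : Xn nt ≤ R := Xn_le_R H.hR H.he1 h5
      have ht := HC.t0_le H.he0 H.he1
      have ht1 := HC.le_t1 H.he0
      have hvt' := hvt (n0F k (t0F k km e0 e1 B) e1) N z w R σ hN06 H.hC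
          (HC.n0_le ht H.he1) H.hR H.he0 H.he1 hXR
      rw [ssT_eq, Nat.zero_mul, Nat.add_zero, wwT_eq, Nat.zero_mul, Nat.add_zero, hL1]
      have ht0 : t0F k km e0 e1 B = t0F k km e0 e1 B := rfl
      generalize hg : t0F k km e0 e1 B = t at ht hc2 hvt' hN06 ⊢
      generalize t1F k e0 A = t1 at ht1 ⊢
      exact killB HC hE hEps hnt h5 hLR hLT hGA rfl hg.symm ht1 hc2 hvt' rfl (TH_B ..)

/-- restriction of the interval of `1/R` -/
theorem InC.cut {ea eb E0 E1 : ℕ} (H : InC k km ea eb A B z w R σ)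
    (h0 : (E0 : ℝ) / 1024 ≤ 1 / R) (h1 : 1 / R ≤ (E1 : ℝ) / 1024) :
    InC k km E0 E1 A B z w R σ :=
  ⟨H.hC, H.h6, H.hR, h0, h1, H.hN1, H.hN0, H.hA, H.hB⟩

/-- soundness of `cellsK` -/
theorem cellsK_sound {EL EE : ℕ} (hk : kOK k km = true) (hE : EOK k A EL EE) {kk : CT → Bool} :
    ∀ (ec : EC) (ea eb : ℕ) (r : CT), ECok ec ea eb →
      cellsK k km A B EL EE ec r kk = true →
      ∃ ct, kk ct = true ∧ (∀ P, r.Ex P → ct.Ex P) ∧ (ec ≠ EC.nil →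
        ∀ (N : ℕ) (z w : Fin N → ℂ) (R : ℝ) (σ : Fin N → ℂ), InC k km ea eb A B z w R σ →
          ct.Ex (KillP k N w R)) := by
  intro ec
  induction ec with
  | nil =>
    intro ea eb r _ h
    exact ⟨r, h, fun _ h => h, fun h => absurd rfl h⟩
  | A e0 e1 HS L1 LD LT nd c ih =>
    intro ea eb r hec h
    obtain ⟨rfl, hc, h170, hHS, hL1, hLD, hLT, hnd⟩ := hec
    unfold cellsK at h
    obtain ⟨r', h', hm', hk'⟩ := cellA_sound (B := B) hk hE h170 hHS hL1 hLD hLT hnd h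
    obtain ⟨ct, h'', hm'', hk''⟩ := ih ea e0 r' hc h'
    refine ⟨ct, h'', fun P hP => hm'' P (hm' P hP), fun _ => ?_⟩
    intro N z w R σ H
    rcases le_total ((e0 : ℝ) / 1024) (1 / R) with h1 | h1
    · exact hm'' _ (hk' N z w R σ (InC.cut H h1 H.he1))
    · by_cases hn : c = EC.nil
      · subst hn
        have : ea = e0 := hc
        subst this
        exact hm'' _ (hk' N z w R σ H)
      · exact hk'' hn N z w R σ (InC.cut H H.he0 h1)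
  | B e0 e1 nt LR HS L1 LD LT GA vt c ih =>
    intro ea eb r hec h
    obtain ⟨rfl, hc, h424, hnt, h5, hLR, hHS, hL1, hLD, hLT, hGA, hvt⟩ := hec
    unfold cellsK at h
    obtain ⟨r', h', hm', hk'⟩ :=
      cellB_sound (B := B) hk hE h424 hnt h5 hLR hHS hL1 hLD hLT hGA hvt h
    obtain ⟨ct, h'', hm'', hk''⟩ := ih ea e0 r' hc h'
    refine ⟨ct, h'', fun P hP => hm'' P (hm' P hP), fun _ => ?_⟩
    intro N z w R σ H
    rcases le_total ((e0 : ℝ) / 1024) (1 / R) with h1 | h1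
    · exact hm'' _ (hk' N z w R σ (InC.cut H h1 H.he1))
    · by_cases hn : c = EC.nil
      · subst hn
        have : ea = e0 := hc
        subst this
        exact hm'' _ (hk' N z w R σ H)
      · exact hk'' hn N z w R σ (InC.cut H H.he0 h1)

theorem hp_eq_HN (p : ℕ → ℕ) (J : ℕ) : hp p J = HN p J := by
  rw [hp_eq_sum]
  unfold HN
  norm_num

/-- **CELL, final form** -/
theorem cells_sound {EL EE ea eb : ℕ} (hk : kOK k km = true) {ec : EC} (hec : ECok ec ea eb)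
    (hab : ea < eb) (hE : EOK k A EL EE) {kk : CT → Bool}
    (h : cellsK k km A B EL EE ec CT.nil kk = true) :
    ∃ ct, kk ct = true ∧ ∀ (N : ℕ) (z w : Fin N → ℂ) (R : ℝ) (σ : Fin N → ℂ),
      InC k km ea eb A B z w R σ → ct ≠ CT.nil ∧
      ∀ (J0 J1 : ℕ) (φ : ℝ) (p n₁ n₂ : ℕ → ℕ), J0 + J1 = 31 →
        (∀ i < J0, p i < 2 ^ 80 ∧ PosCell (QR ((k : ℝ) / 16) R (uu w)) φ ((i : ℝ) / 32)
          (((i + 1 : ℕ) : ℝ) / 32) ((p i : ℝ) / (32 * 2 ^ 40))) →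
        (∀ i < J1, n₁ i < 2 ^ 80 ∧ n₂ i < 2 ^ 80 ∧
          NegCell (QR ((k : ℝ) / 16) R (uu w)) φ (((J0 + i : ℕ) : ℝ) / 32)
            (((J0 + i + 1 : ℕ) : ℝ) / 32) ((n₁ i : ℝ) / (32 * 2 ^ 40))
            ((n₂ i : ℝ) / (32 * 2 ^ 40))) →
        leafT J0 J1 (hp p J0) (hp n₁ J1) (hp n₂ J1) ct = true → False := by
  obtain ⟨ct, h1, -, h3⟩ := cellsK_sound hk hE ec ea eb CT.nil hec h
  refine ⟨ct, h1, ?_⟩
  intro N z w R σ H
  have hne : ec ≠ EC.nil := by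
    rintro rfl
    have : ea = eb := hec
    omega
  have hex := h3 hne N z w R σ H
  refine ⟨?_, ?_⟩
  · rintro rfl
    exact hex
  · intro J0 J1 φ p n₁ n₂ hJ hp1 hn1 ht
    rw [hp_eq_HN, hp_eq_HN, hp_eq_HN] at ht
    refine leafT_kill hex (φ := φ) ?_ ht
    refine ⟨hJ, ?_, ?_, ?_, ?_, ?_⟩
    · intro j hj
      have := (hp1 j hj).1
      norm_num at this ⊢
      exact this
    · intro j hj
      have := (hn1 j hj).1
      norm_num at this ⊢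
      exact this
    · intro j hj
      have := (hn1 j hj).2.1
      norm_num at this ⊢
      exact this
    · intro j hj
      exact (hp1 j hj).2
    · intro j hj
      exact (hn1 j hj).2.2

/-! ### helper11's forms -/

/-- helper11's `MkAS` -/
theorem mkAS (e0 e1 nd : ℕ) (r : EC) (kk : EC → Bool) (ea : ℕ) (hr : ECok r ea e0)
    (_ : e0 ≤ e1)
    (hnd : ∀ (N : ℕ) (z w : Fin N → ℂ) (R : ℝ) (σ : Fin N → ℂ), Cfg2 N z w R σ → 6 ≤ N →
      29 / 12 ≤ R → (e0 : ℝ) / 1024 ≤ 1 / R → 1 / R ≤ (e1 : ℝ) / 1024 →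
      (((N : ℝ) + 1) / R) * ‖∫ x in (0 : ℝ)..(3 / 5 * R), qq (uu w) x‖ < (nd : ℝ) / 2 ^ 40)
    (h : mkA e0 e1 nd r kk = true) : ∃ ec, kk ec = true ∧ ECok ec ea e1 := by
  obtain ⟨ec, h1, h2⟩ := mkA_sound hr hnd h
  exact ⟨ec, h2, h1⟩

/-- helper11's `MkBS` -/
theorem mkBS (e0 e1 nt LR : ℕ) (vt : ℕ → ℕ) (r : EC) (kk : EC → Bool) (ea : ℕ)
    (hr : ECok r ea e0) (_ : e0 ≤ e1)
    (hvt : ∀ (N0 N : ℕ) (z w : Fin N → ℂ) (R : ℝ) (σ : Fin N → ℂ), 6 ≤ N0 → Cfg2 N z w R σ →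
      N0 ≤ N → 29 / 12 ≤ R → (e0 : ℝ) / 1024 ≤ 1 / R → 1 / R ≤ (e1 : ℝ) / 1024 →
      1 + (nt : ℝ) / 8 ≤ R →
      (((N : ℝ) + 1) / R) * ∫ x in (1 + (nt : ℝ) / 8)..R, ‖qq (uu w) x‖ ≤ (vt N0 : ℝ) / 2 ^ 40)
    (h : mkB e0 e1 nt LR vt r kk = true) : ∃ ec, kk ec = true ∧ ECok ec ea e1 := by
  obtain ⟨ec, h1, h2⟩ := mkB_sound hr hvt h
  exact ⟨ec, h2, h1⟩

/-- helper11's `CellsS` (with the hypotheses `kOK k km = true` and `ea < eb`) -/
theorem cellsS (k km ea eb A B EL EE : ℕ) (ec : EC) (kk : CT → Bool) (hk : kOK k km = true)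
    (hab : ea < eb) (hec : ECok ec ea eb)
    (hEL : ∀ m : ℝ, |m| ≤ 1 → (A : ℝ) / 512 ≤ 1 + m →
      EK ((k : ℝ) / 16) m ((31 : ℕ) / (32 : ℕ)) ≤ (EL : ℝ) / 1099511627776)
    (hEE : ∀ i ≤ 24, ∀ m : ℝ, |m| ≤ 1 → (A : ℝ) / 512 ≤ 1 + m →
      EK ((k : ℝ) / 16) m (((8 + i : ℕ) : ℝ) / (8 : ℕ)) ≤ (dg EE i : ℝ) / 1099511627776)
    (h : cellsK k km A B EL EE ec CT.nil kk = true) :
    ∃ ct, kk ct = true ∧ ∀ (N : ℕ) (z w : Fin N → ℂ) (R : ℝ) (σ : Fin N → ℂ),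
      InC k km ea eb A B z w R σ →
    ct ≠ CT.nil ∧ ∀ (phi J0 J1 : ℕ) (p n₁ n₂ : ℕ → ℕ), J0 + J1 = 31 →
      ((∀ i < J0, p i < 2 ^ 80 ∧
        PosCell (QR ((k : ℝ) / 16) R (uu w)) ((phi : ℝ) / 1099511627776) ((i : ℝ) / (32 : ℕ))
          (((i + 1 : ℕ) : ℝ) / (32 : ℕ)) ((p i : ℝ) / ((32 : ℕ) * 1099511627776))) ∧
      (∀ i < J1, n₁ i < 2 ^ 80 ∧ n₂ i < 2 ^ 80 ∧
        NegCell (QR ((k : ℝ) / 16) R (uu w)) ((phi : ℝ) / 1099511627776)
          (((J0 + i : ℕ) : ℝ) / (32 : ℕ)) (((J0 + i + 1 : ℕ) : ℝ) / (32 : ℕ))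
          ((n₁ i : ℝ) / ((32 : ℕ) * 1099511627776)) ((n₂ i : ℝ) / ((32 : ℕ) * 1099511627776)))) →
      leafT J0 J1 (hp p J0) (hp n₁ J1) (hp n₂ J1) ct = true → False := by
  have e40 : (1099511627776 : ℝ) = 2 ^ 40 := by norm_num
  have e32 : ((32 : ℕ) : ℝ) = 32 := by norm_num
  have hE : EOK k A EL EE := by
    constructor
    · intro m hm h1
      have h2 := hEL m h1 (by linarith)
      rw [e40, e32] at h2
      have e31 : ((31 : ℕ) : ℝ) = 31 := by norm_num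
      rw [e31] at h2
      exact h2
    · intro i hi m hm h1
      have h2 := hEE i hi m h1 (by linarith)
      rw [e40] at h2
      have e8 : (((8 + i : ℕ) : ℝ) / ((8 : ℕ) : ℝ)) = 1 + (i : ℝ) / 8 := by
        push_cast
        ring
      rw [e8] at h2
      exact h2
  obtain ⟨ct, h1, h2⟩ := cells_sound hk hec hab hE h
  refine ⟨ct, h1, ?_⟩
  intro N z w R σ H
  obtain ⟨h3, h4⟩ := h2 N z w R σ H
  refine ⟨h3, ?_⟩
  intro phi J0 J1 p n₁ n₂ hJ hL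
  rw [e40, e32] at hL
  exact h4 J0 J1 _ p n₁ n₂ hJ hL.1 hL.2

end

end Pool.Agent.Lib.MP_af3a4a_an.P1.H28
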