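import Pool.Agent.Lib.MP_af3a4a_an.P1.H28.CellN

/-!
# Packed tables (council 2, helper28)

`PK f n = ∑_{j < n} f j X^j`, `HN p J = ∑_{j < J} p j X^(J - 1 - j)`, `X = 2^128`.
-/

set_option autoImplicit false

namespace Pool.Agent.Lib.MP_af3a4a_an.P1.H28

open Finset Polynomial
open Pool.Agent.Lib.MP_af3a4a_an.P1.CHK.Arith

theorem eval_div_mod {B : ℕ} : ∀ (n : ℕ) (f : ℕ[X]), (∀ c ≤ n, f.coeff c < B) →
    f.eval B / B ^ n % B = f.coeff n := by
  intro n
  induction n with
  | zero =>
    intro f h
    have e := congrArg (Polynomial.eval B) (divX_mul_X_add f)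
    rw [eval_add, eval_mul, eval_X, eval_C] at e
    rw [pow_zero, Nat.div_one, ← e, add_comm, Nat.add_mul_mod_self_right]
    exact Nat.mod_eq_of_lt (h 0 le_rfl)
  | succ n ih =>
    intro f h
    have h0 := h 0 (Nat.zero_le _)
    have hB : 0 < B := lt_of_le_of_lt (Nat.zero_le _) h0
    have e := congrArg (Polynomial.eval B) (divX_mul_X_add f)
    rw [eval_add, eval_mul, eval_X, eval_C] at e
    have e2 : f.eval B / B = (divX f).eval B := by
      rw [← e, add_comm, Nat.add_mul_div_right _ _ hB, Nat.div_eq_of_lt h0, zero_add]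
    rw [pow_succ', ← Nat.div_div_eq_div_mul, e2, ih (divX f)]
    · rw [coeff_divX, add_comm]
    · intro c hc
      rw [coeff_divX]
      exact h _ (by omega)

/-- packed table -/
def PK (f : ℕ → ℕ) (n : ℕ) : ℕ :=
  ∑ j ∈ range n, f j * 340282366920938463463374607431768211456 ^ j

/-- Horner order -/
def HN (p : ℕ → ℕ) (J : ℕ) : ℕ :=
  ∑ j ∈ range J, p j * 340282366920938463463374607431768211456 ^ (J - 1 - j)

theorem PK_zero (f : ℕ → ℕ) : PK f 0 = 0 := by simp [PK]

theorem PK_succ (f : ℕ → ℕ) (n : ℕ) :
    PK f (n + 1) = PK f n + f n * 340282366920938463463374607431768211456 ^ n := by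
  simp [PK, sum_range_succ]

/-- the polynomial of a table -/
noncomputable def pkP (f : ℕ → ℕ) (n : ℕ) : ℕ[X] := ∑ j ∈ range n, C (f j) * Polynomial.X ^ j

theorem pkP_eval (f : ℕ → ℕ) (n : ℕ) :
    (pkP f n).eval 340282366920938463463374607431768211456 = PK f n := by
  unfold pkP PK
  rw [eval_finsetSum]
  simp

theorem pkP_coeff (f : ℕ → ℕ) (n i : ℕ) : (pkP f n).coeff i = if i < n then f i else 0 := by
  unfold pkP
  rw [finsetSum_coeff]
  simp only [coeff_C_mul, coeff_X_pow, mul_ite, mul_one, mul_zero]
  rw [sum_ite_eq]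
  simp

theorem shr_pow (a j : ℕ) :
    a >>> (128 * j) = a / 340282366920938463463374607431768211456 ^ j := by
  rw [Nat.shiftRight_eq_div_pow, pow_mul]
  norm_num

theorem dg_PK {f : ℕ → ℕ} {n : ℕ}
    (h : ∀ j < n, f j < 340282366920938463463374607431768211456) {i : ℕ} (hi : i < n) :
    dg (PK f n) i = f i := by
  unfold dg
  rw [shr_pow, ← pkP_eval, eval_div_mod, pkP_coeff, if_pos hi]
  intro c _
  rw [pkP_coeff]
  split_ifs with h1
  · exact h c h1
  · norm_num

theorem PK_lt {f : ℕ → ℕ} {n : ℕ}
    (h : ∀ j < n, f j < 340282366920938463463374607431768211456) :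
    PK f n < 340282366920938463463374607431768211456 ^ n := by
  induction n with
  | zero => simp [PK]
  | succ n ih =>
    rw [PK_succ, pow_succ']
    have h1 := ih fun j hj => h j (by omega)
    have h2 := h n (by omega)
    have h3 : f n * 340282366920938463463374607431768211456 ^ n +
        340282366920938463463374607431768211456 ^ n ≤ 340282366920938463463374607431768211456 *
        340282366920938463463374607431768211456 ^ n := by
      rw [← Nat.succ_mul]
      exact Nat.mul_le_mul_right _ h2
    omega

/-- shifting a packed table -/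
theorem PK_shift {f : ℕ → ℕ} {n : ℕ}
    (h : ∀ j < n, f j < 340282366920938463463374607431768211456) {i : ℕ} (hi : i ≤ n) :
    PK f n >>> (128 * i) = PK (fun j => f (i + j)) (n - i) := by
  rw [shr_pow]
  have e : PK f n = PK f i + PK (fun j => f (i + j)) (n - i) *
      340282366920938463463374607431768211456 ^ i := by
    obtain ⟨m, rfl⟩ := Nat.exists_eq_add_of_le hi
    unfold PK
    rw [sum_range_add, Nat.add_sub_cancel_left, sum_mul]
    congr 1
    apply sum_congr rfl
    intro j _
    rw [pow_add]
    ring
  rw [e, Nat.add_mul_div_right _ _ (by positivity), Nat.div_eq_of_lt, zero_add]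
  exact PK_lt fun j hj => h j (by omega)

/-- **the dot product by one multiplication** -/
theorem dotN_eq {p w : ℕ → ℕ} {J m : ℕ} (hm : J ≤ m) (hJ : J ≤ 32)
    (hp : ∀ j < J, p j < 1208925819614629174706176) (hw : ∀ j < m, w j ≤ 1099511627776) :
    dotN (HN p J) (PK w m) J = ∑ j ∈ range J, p j * w j := by
  rcases Nat.eq_zero_or_pos J with h0 | h0
  · subst h0
    simp [dotN, HN]
  unfold dotN
  have e1 : HN p J = (pkP (fun i => p (J - 1 - i)) J).eval
      340282366920938463463374607431768211456 := by
    rw [pkP_eval]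
    unfold HN PK
    rw [← sum_range_reflect]
    apply sum_congr rfl
    intro j hj
    rw [mem_range] at hj
    congr 2
    omega
  rw [shr_pow, e1, ← pkP_eval, ← eval_mul, eval_div_mod]
  · rw [coeff_mul, Nat.sum_antidiagonal_eq_sum_range_succ_mk, Nat.succ_eq_add_one,
      Nat.sub_add_cancel h0, ← sum_range_reflect]
    apply sum_congr rfl
    intro j hj
    rw [mem_range] at hj
    simp only [pkP_coeff]
    rw [if_pos (by omega), if_pos (by omega)]
    congr 2 <;> omega
  · intro c hc
    rw [coeff_mul, Nat.sum_antidiagonal_eq_sum_range_succ_mk]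
    have h1 : ∀ i ∈ range c.succ, (pkP (fun i => p (J - 1 - i)) J).coeff i *
        (pkP w m).coeff (c - i) ≤ 1208925819614629174706176 * 1099511627776 := by
      intro i _
      rw [pkP_coeff, pkP_coeff]
      apply Nat.mul_le_mul
      · split_ifs with h2
        · exact (hp _ (by omega)).le
        · exact Nat.zero_le _
      · split_ifs with h2
        · exact hw _ h2
        · exact Nat.zero_le _
    refine lt_of_le_of_lt (sum_le_card_nsmul _ _ _ h1) ?_
    rw [card_range, smul_eq_mul]
    have h3 : c.succ ≤ 32 := by omega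
    calc c.succ * (1208925819614629174706176 * 1099511627776)
        ≤ 32 * (1208925819614629174706176 * 1099511627776) := Nat.mul_le_mul_right _ h3
      _ < 340282366920938463463374607431768211456 := by norm_num

end Pool.Agent.Lib.MP_af3a4a_an.P1.H28
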