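import Pool.Agent.Lib.MP_af3a4a_an.P1.H28.CellP
import Pool.Agent.Lib.MP_af3a4a_an.P1.H11.Comb

/-!
# The tables of `l` (council 2, helper28)
-/

set_option autoImplicit false

namespace Pool.Agent.Lib.MP_af3a4a_an.P1.H28

open Finset
open Pool.Agent.Lib.MP_af3a4a_an.P1.CHK.Arith
open Pool.Agent.Lib.MP_af3a4a_an.P1.H11

/-! ### the series of the logarithm -/

/-- partial sum of `-log (1 - t)/t` -/
noncomputable def Ls (i : ℕ) (t : ℝ) : ℝ := ∑ m ∈ range i, t ^ m / ((m : ℝ) + 1)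

theorem Ls_succ (i : ℕ) (t : ℝ) : Ls (i + 1) t = Ls i t + t ^ i / ((i : ℝ) + 1) := by
  simp [Ls, sum_range_succ]

theorem Ls_mono {i : ℕ} {s t : ℝ} (h0 : 0 ≤ s) (h : s ≤ t) : Ls i s ≤ Ls i t := by
  unfold Ls
  apply sum_le_sum
  intro m _
  apply div_le_div_of_nonneg_right _ (by positivity)
  exact pow_le_pow_left₀ h0 h m

theorem mul_Ls (i : ℕ) (t : ℝ) : ∑ m ∈ range i, t ^ (m + 1) / ((m : ℝ) + 1) = t * Ls i t := by
  unfold Ls
  rw [mul_sum]
  apply sum_congr rfl
  intro m _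
  rw [pow_succ]
  ring

theorem log_lower {t : ℝ} (h0 : 0 ≤ t) (h1 : t < 1) :
    t * (Ls 16 t + t ^ 16 / 17) ≤ -Real.log (1 - t) := by
  have h := Real.hasSum_pow_div_log_of_abs_lt_one (x := t) (by rwa [abs_of_nonneg h0])
  have h2 := sum_le_hasSum (range 17) (fun i _ => by positivity) h
  rw [mul_Ls, Ls_succ] at h2
  norm_num at h2 ⊢
  exact h2

theorem log_upper {t : ℝ} (h0 : 0 ≤ t) (h1 : t < 1) :
    -Real.log (1 - t) ≤ t * (Ls 16 t + t ^ 16 / (17 * (1 - t))) := by
  have h := Real.hasSum_pow_div_log_of_abs_lt_one (x := t) (by rwa [abs_of_nonneg h0])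
  have h2 := (hasSum_nat_add_iff' 16).2 h
  have h3 := (hasSum_geometric_of_lt_one h0 h1).mul_left (t ^ 17 / 17)
  have h4 := hasSum_le (fun n => ?_) h2 h3
  · rw [mul_Ls] at h4
    have h5 : t ^ 17 / 17 * (1 - t)⁻¹ = t * (t ^ 16 / (17 * (1 - t))) := by
      have : (1 - t) ≠ 0 := by linarith
      field_simp
    rw [h5] at h4
    linarith
  · have h5 : ((n + 16 : ℕ) : ℝ) + 1 = (n : ℝ) + 17 := by push_cast; ring
    rw [h5, show n + 16 + 1 = 17 + n by ring, pow_add, div_mul_eq_mul_div]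
    apply div_le_div_of_nonneg_left (by positivity) (by norm_num)
    have : (0 : ℝ) ≤ n := Nat.cast_nonneg _
    linarith

/-! ### the Horner loops -/

theorem S40 : ((1099511627776 : ℕ) : ℝ) = 2 ^ 40 := by norm_num

theorem phU_spec (n : ℕ) : ∀ (i h : ℕ) (a : ℝ), 2 ^ 40 * a ≤ h →
    2 ^ 40 * (Ls i ((n : ℝ) / 2 ^ 15) + ((n : ℝ) / 2 ^ 15) ^ i * a) ≤ phU n i h := by
  intro i
  induction i with
  | zero =>
    intro h a ha
    simpa [Ls, phU] using ha
  | succ i ih =>
    intro h a ha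
    unfold phU
    rw [ev_eq]
    have h1 := real_le_div 1099511627776 (i + 1) (Nat.succ_pos _)
    have h2 := le_shr (n * h) 15
    have h3 := ih (1099511627776 / (i + 1) + (n * h) >>> 15 + 2)
      (1 / ((i : ℝ) + 1) + (n : ℝ) / 2 ^ 15 * a) ?_
    · refine le_trans (le_of_eq ?_) h3
      rw [Ls_succ]
      ring
    · rw [S40] at h1
      push_cast at h1 h2 ⊢
      have h4 : (n : ℝ) / 2 ^ 15 * (2 ^ 40 * a) ≤ (n : ℝ) / 2 ^ 15 * h :=
        mul_le_mul_of_nonneg_left ha (by positivity)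
      have h5 : (2 : ℝ) ^ 40 * (1 / ((i : ℝ) + 1)) = 2 ^ 40 / ((i : ℝ) + 1) := by ring
      have h6 : (n : ℝ) / 2 ^ 15 * h = n * h / 2 ^ 15 := by ring
      rw [mul_add, h5]
      rw [h6] at h4
      have h7 : (2 : ℝ) ^ 40 * ((n : ℝ) / 2 ^ 15 * a) = (n : ℝ) / 2 ^ 15 * (2 ^ 40 * a) := by ring
      rw [h7]
      linarith

theorem phL_spec (n : ℕ) : ∀ (i h : ℕ) (a : ℝ), (h : ℝ) ≤ 2 ^ 40 * a →
    (phL n i h : ℝ) ≤ 2 ^ 40 * (Ls i ((n : ℝ) / 2 ^ 15) + ((n : ℝ) / 2 ^ 15) ^ i * a) := by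
  intro i
  induction i with
  | zero =>
    intro h a ha
    simpa [Ls, phL] using ha
  | succ i ih =>
    intro h a ha
    unfold phL
    rw [ev_eq]
    have h1 := div_le_real 1099511627776 (i + 1)
    have h2 := shr_le (n * h) 15
    have h3 := ih (1099511627776 / (i + 1) + (n * h) >>> 15)
      (1 / ((i : ℝ) + 1) + (n : ℝ) / 2 ^ 15 * a) ?_
    · refine le_trans h3 (le_of_eq ?_)
      rw [Ls_succ]
      ring
    · rw [S40] at h1
      push_cast at h1 h2 ⊢
      have h4 : (n : ℝ) / 2 ^ 15 * h ≤ (n : ℝ) / 2 ^ 15 * (2 ^ 40 * a) :=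
        mul_le_mul_of_nonneg_left ha (by positivity)
      have h5 : (2 : ℝ) ^ 40 * (1 / ((i : ℝ) + 1)) = 2 ^ 40 / ((i : ℝ) + 1) := by ring
      have h6 : (n : ℝ) / 2 ^ 15 * h = n * h / 2 ^ 15 := by ring
      rw [mul_add, h5]
      rw [h6] at h4
      have h7 : (2 : ℝ) ^ 40 * ((n : ℝ) / 2 ^ 15 * a) = (n : ℝ) / 2 ^ 15 * (2 ^ 40 * a) := by ring
      rw [h7]
      linarith

/-- bounds of the size of the loops -/
theorem phU_le (n : ℕ) (hn : n ≤ 32768) : ∀ i h : ℕ, phU n i h ≤ h + i * 1099511627778 := by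
  intro i
  induction i with
  | zero => intro h; simp [phU]
  | succ i ih =>
    intro h
    unfold phU
    rw [ev_eq]
    refine (ih _).trans ?_
    have h1 : 1099511627776 / (i + 1) ≤ 1099511627776 := Nat.div_le_self _ _
    have h2 : (n * h) >>> 15 ≤ h := by
      rw [Nat.shiftRight_eq_div_pow]
      apply Nat.div_le_of_le_mul
      exact Nat.mul_le_mul_right h hn
    have h3 : (i + 1) * 1099511627778 = i * 1099511627778 + 1099511627778 := by ring
    omega

theorem phL_le (n : ℕ) (hn : n ≤ 32768) : ∀ i h : ℕ, phL n i h ≤ h + i * 1099511627776 := by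
  intro i
  induction i with
  | zero => intro h; simp [phL]
  | succ i ih =>
    intro h
    unfold phL
    rw [ev_eq]
    refine (ih _).trans ?_
    have h1 : 1099511627776 / (i + 1) ≤ 1099511627776 := Nat.div_le_self _ _
    have h2 : (n * h) >>> 15 ≤ h := by
      rw [Nat.shiftRight_eq_div_pow]
      apply Nat.div_le_of_le_mul
      exact Nat.mul_le_mul_right h hn
    have h3 : (i + 1) * 1099511627776 = i * 1099511627776 + 1099511627776 := by ring
    omega

/-! ### the values of `l` -/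

theorem lU_spec {R : ℝ} {e j : ℕ} (hR : 0 < R) (he : 1 / R ≤ (e : ℝ) / 1024) (hj : e * j < 32768) :
    el R ((j : ℝ) / 32) ≤ (lU e j : ℝ) / 2 ^ 40 := by
  set x : ℝ := (j : ℝ) / 32 with hx
  have hx0 : 0 ≤ x := by rw [hx]; positivity
  set t : ℝ := x / R with ht
  set t1 : ℝ := ((e * j : ℕ) : ℝ) / 2 ^ 15 with ht1
  have ht0 : 0 ≤ t := div_nonneg hx0 hR.le
  have htt : t ≤ t1 := by
    have h1 : t = x * (1 / R) := by rw [ht]; ring
    rw [h1]
    refine (mul_le_mul_of_nonneg_left he hx0).trans (le_of_eq ?_)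
    rw [hx, ht1]
    push_cast
    ring
  have ht11 : t1 < 1 := by
    rw [ht1, div_lt_one (by positivity)]
    have : ((e * j : ℕ) : ℝ) < ((32768 : ℕ) : ℝ) := by exact_mod_cast hj
    norm_num at this ⊢
    exact this
  have ht1' : t < 1 := lt_of_le_of_lt htt ht11
  have h1 := log_upper ht0 ht1'
  have h2 : el R x ≤ x * (Ls 16 t1 + t1 ^ 16 * (1 / (17 * (1 - t1)))) := by
    have h3 : el R x = R * -Real.log (1 - t) := by unfold el; ring
    rw [h3]
    have h4 := mul_le_mul_of_nonneg_left h1 hR.le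
    refine h4.trans ?_
    have h5 : R * (t * (Ls 16 t + t ^ 16 / (17 * (1 - t)))) =
        x * (Ls 16 t + t ^ 16 / (17 * (1 - t))) := by
      rw [← mul_assoc, ht, mul_div_cancel₀ _ hR.ne']
    rw [h5]
    apply mul_le_mul_of_nonneg_left _ hx0
    apply add_le_add (Ls_mono ht0 htt)
    rw [mul_one_div]
    apply div_le_div₀ (by positivity) (pow_le_pow_left₀ ht0 htt 16) (by linarith)
    linarith
  refine h2.trans ?_
  have h6 := phU_spec (e * j) 16 (36028797018963968 / (17 * (32768 - e * j)) + 1)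
    (1 / (17 * (1 - t1))) ?_
  · have h7 := le_shr (j * phU (e * j) 16 (36028797018963968 / (17 * (32768 - e * j)) + 1)) 5
    unfold lU
    rw [le_div_iff₀ (by positivity)]
    refine le_trans ?_ h7
    rw [le_div_iff₀ (by positivity), Nat.cast_mul]
    rw [← ht1] at h6
    have h8 := mul_le_mul_of_nonneg_left h6 (Nat.cast_nonneg (α := ℝ) j)
    refine le_trans (le_of_eq ?_) h8
    rw [hx]
    ring
  · have h7 := real_le_div 36028797018963968 (17 * (32768 - e * j)) (by omega)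
    refine le_trans (le_of_eq ?_) h7
    rw [Nat.cast_mul, Nat.cast_sub hj.le, ht1]
    have h8 : (32768 : ℝ) - ((e * j : ℕ) : ℝ) ≠ 0 := by
      have : ((e * j : ℕ) : ℝ) < ((32768 : ℕ) : ℝ) := by exact_mod_cast hj
      norm_num at this ⊢
      linarith
    generalize ((e * j : ℕ) : ℝ) = y at h8
    have h9 : (1 : ℝ) - y / 2 ^ 15 = (32768 - y) / 32768 := by
      norm_num
      ring
    rw [h9]
    push_cast
    field_simp
    norm_num

theorem lL_spec {R : ℝ} {e j : ℕ} (hR : 0 < R) (he : (e : ℝ) / 1024 ≤ 1 / R)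
    (hj : (j : ℝ) / 32 < R) : (lL e j : ℝ) / 2 ^ 40 ≤ el R ((j : ℝ) / 32) := by
  set x : ℝ := (j : ℝ) / 32 with hx
  have hx0 : 0 ≤ x := by rw [hx]; positivity
  set t : ℝ := x / R with ht
  set t1 : ℝ := ((e * j : ℕ) : ℝ) / 2 ^ 15 with ht1
  have ht0 : 0 ≤ t1 := by rw [ht1]; positivity
  have htt : t1 ≤ t := by
    have h1 : t = x * (1 / R) := by rw [ht]; ring
    rw [h1]
    refine le_trans (le_of_eq ?_) (mul_le_mul_of_nonneg_left he hx0)
    rw [hx, ht1]
    push_cast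
    ring
  have ht1' : t < 1 := by rw [ht, div_lt_one hR]; exact hj
  have h1 := log_lower (ht0.trans htt) ht1'
  have h2 : x * (Ls 16 t1 + t1 ^ 16 * (1 / 17)) ≤ el R x := by
    have h3 : el R x = R * -Real.log (1 - t) := by unfold el; ring
    rw [h3]
    have h4 := mul_le_mul_of_nonneg_left h1 hR.le
    refine le_trans ?_ h4
    have h5 : R * (t * (Ls 16 t + t ^ 16 / 17)) = x * (Ls 16 t + t ^ 16 / 17) := by
      rw [← mul_assoc, ht, mul_div_cancel₀ _ hR.ne']
    rw [h5]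
    apply mul_le_mul_of_nonneg_left _ hx0
    apply add_le_add (Ls_mono ht0 htt)
    rw [mul_one_div]
    exact div_le_div_of_nonneg_right (pow_le_pow_left₀ ht0 htt 16) (by norm_num)
  refine le_trans ?_ h2
  have h6 := phL_spec (e * j) 16 64677154575 (1 / 17) (by norm_num)
  have h7 := shr_le (j * phL (e * j) 16 64677154575) 5
  unfold lL
  rw [div_le_iff₀ (by positivity)]
  refine h7.trans ?_
  rw [div_le_iff₀ (by positivity), Nat.cast_mul]
  rw [← ht1] at h6
  have h8 := mul_le_mul_of_nonneg_left h6 (Nat.cast_nonneg (α := ℝ) j)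
  refine h8.trans (le_of_eq ?_)
  rw [hx]
  ring

theorem lU_lt {e j : ℕ} (hj : e * j < 32768) (h : j ≤ 128) : lU e j < 2 ^ 60 := by
  unfold lU
  have h1 := phU_le (e * j) hj.le 16 (36028797018963968 / (17 * (32768 - e * j)) + 1)
  have h2 : 36028797018963968 / (17 * (32768 - e * j)) ≤ 36028797018963968 := Nat.div_le_self _ _
  have h3 : j * phU (e * j) 16 (36028797018963968 / (17 * (32768 - e * j)) + 1) ≤
      128 * (36028797018963968 + 1 + 16 * 1099511627778) :=
    Nat.mul_le_mul h (h1.trans (by omega))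
  rw [Nat.shiftRight_eq_div_pow]
  have h4 : j * phU (e * j) 16 (36028797018963968 / (17 * (32768 - e * j)) + 1) / 2 ^ 5 ≤
      128 * (36028797018963968 + 1 + 16 * 1099511627778) / 2 ^ 5 := Nat.div_le_div_right h3
  norm_num at h4 ⊢
  omega

theorem lL_lt {e j : ℕ} (hj : e * j < 32768) (h : j ≤ 128) : lL e j < 2 ^ 60 := by
  unfold lL
  have h1 := phL_le (e * j) hj.le 16 64677154575
  have h3 : j * phL (e * j) 16 64677154575 ≤ 128 * (64677154575 + 16 * 1099511627776) :=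
    Nat.mul_le_mul h h1
  rw [Nat.shiftRight_eq_div_pow]
  have h4 : j * phL (e * j) 16 64677154575 / 2 ^ 5 ≤
      128 * (64677154575 + 16 * 1099511627776) / 2 ^ 5 := Nat.div_le_div_right h3
  norm_num at h4 ⊢
  omega

/-! ### the loops which fill the tables -/

/-- digits of the table `hsT` -/
def hsD (e j : ℕ) : ℕ := (lU e (j + 1) + lU e j) >>> 1 + 1

theorem hsT_eq (e : ℕ) : ∀ j acc : ℕ, hsT e j (lU e j) acc =
    PK (hsD e) j + acc * 340282366920938463463374607431768211456 ^ j := by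
  intro j
  induction j with
  | zero => intro acc; simp [hsT, PK]
  | succ j ih =>
    intro acc
    unfold hsT
    rw [ev_eq, ev_eq, ih, PK_succ, hsD]
    ring

theorem ldT_eq (e a b : ℕ) : ∀ j acc : ℕ, ldT e a b j acc =
    PK (fun i => lL e (a + b * i)) j + acc * 340282366920938463463374607431768211456 ^ j := by
  intro j
  induction j with
  | zero => intro acc; simp [ldT, PK]
  | succ j ih =>
    intro acc
    unfold ldT
    rw [ev_eq, ih, PK_succ]
    ring

theorem gaT_eq (e : ℕ) : ∀ j acc : ℕ, gaT e j acc =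
    PK (gaF e) j + acc * 340282366920938463463374607431768211456 ^ j := by
  intro j
  induction j with
  | zero => intro acc; simp [gaT, PK]
  | succ j ih =>
    intro acc
    unfold gaT
    rw [ev_eq, ih, PK_succ]
    ring

/-- digits of `ssT` -/
def ssD (t HS j : ℕ) : ℕ := emL ((t * dg HS j) >>> 23 + 1)

/-- digits of `wwT` -/
def wwD (t LD j : ℕ) : ℕ := emM ((t * dg LD j) >>> 23)

theorem ssT_eq (t HS : ℕ) : ∀ j acc : ℕ, ssT t HS j acc =
    PK (ssD t HS) j + acc * 340282366920938463463374607431768211456 ^ j := by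
  intro j
  induction j with
  | zero => intro acc; simp [ssT, PK]
  | succ j ih =>
    intro acc
    unfold ssT
    rw [ev_eq, ih, PK_succ, ssD]
    ring

theorem wwT_eq (t LD : ℕ) : ∀ j acc : ℕ, wwT t LD j acc =
    PK (wwD t LD) j + acc * 340282366920938463463374607431768211456 ^ j := by
  intro j
  induction j with
  | zero => intro acc; simp [wwT, PK]
  | succ j ih =>
    intro acc
    unfold wwT
    rw [ev_eq, ih, PK_succ, wwD]
    ring

/-! ### the weights -/

theorem ssD_le (t HS j : ℕ) : ssD t HS j ≤ 1099511627776 := by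
  have h := emL_spec ((t * dg HS j) >>> 23 + 1)
  have h1 : Real.exp (-((((t * dg HS j) >>> 23 + 1 : ℕ) : ℝ) / 2 ^ 40)) ≤ 1 := by
    rw [Real.exp_le_one_iff, neg_nonpos]
    positivity
  have h2 := h.trans h1
  rw [div_le_one (by positivity)] at h2
  have h3 : ((ssD t HS j : ℕ) : ℝ) ≤ ((1099511627776 : ℕ) : ℝ) := by
    rw [S40]
    exact h2
  exact_mod_cast h3

theorem emM_le (m : ℕ) : emM m ≤ 1099511627776 := by
  unfold emM
  rw [ev_eq]
  omega

theorem emM_spec (m : ℕ) : Real.exp (-((m : ℝ) / 2 ^ 40)) ≤ (emM m : ℝ) / 2 ^ 40 := by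
  have h := em_spec m
  unfold emM
  rw [ev_eq]
  generalize em m = a at h ⊢
  rcases le_total a 1099511627776 with h1 | h1
  · rw [Nat.sub_eq_zero_of_le h1, Nat.sub_zero]
    exact h
  · have h2 : a - (a - 1099511627776) = 1099511627776 := by omega
    have h3 : ((a - (a - 1099511627776) : ℕ) : ℝ) / 2 ^ 40 = 1 := by
      rw [h2]
      norm_num
    rw [h3, Real.exp_le_one_iff, neg_nonpos]
    exact div_nonneg (Nat.cast_nonneg _) (by norm_num)

/-- lower bound of a positive weight: `T0 = t/2^23`, `l ≤ L/2^40` -/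
theorem ssD_spec {t HS j : ℕ} {l : ℝ} (h : l ≤ (dg HS j : ℝ) / 2 ^ 40) :
    (ssD t HS j : ℝ) / 2 ^ 40 ≤ Real.exp (-((t : ℝ) / 2 ^ 23 * l)) := by
  refine (emL_spec _).trans ?_
  apply Real.exp_le_exp.2
  apply neg_le_neg
  have h1 := le_shr (t * dg HS j) 23
  rw [le_div_iff₀ (by positivity)]
  refine le_trans ?_ h1
  rw [le_div_iff₀ (by positivity), Nat.cast_mul]
  rw [le_div_iff₀ (by positivity)] at h
  have h2 := mul_le_mul_of_nonneg_left h (Nat.cast_nonneg (α := ℝ) t)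
  refine le_trans (le_of_eq ?_) h2
  ring

/-- upper bound of a weight -/
theorem wwD_spec {t LD j : ℕ} {l : ℝ} (h : (dg LD j : ℝ) / 2 ^ 40 ≤ l) :
    Real.exp (-((t : ℝ) / 2 ^ 23 * l)) ≤ (wwD t LD j : ℝ) / 2 ^ 40 := by
  refine le_trans ?_ (emM_spec _)
  apply Real.exp_le_exp.2
  apply neg_le_neg
  have h1 := shr_le (t * dg LD j) 23
  rw [div_le_iff₀ (by positivity)]
  refine h1.trans ?_
  rw [div_le_iff₀ (by positivity), Nat.cast_mul]
  rw [div_le_iff₀ (by positivity)] at h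
  have h2 := mul_le_mul_of_nonneg_left h (Nat.cast_nonneg (α := ℝ) t)
  refine h2.trans (le_of_eq ?_)
  ring

theorem up256X {p : ℕ} {y : ℝ} (hy : 0 ≤ y) (h : y ≤ p / 2 ^ 40) :
    y ^ 256 ≤ ((p ^ 256 >>> 10040 + 1 : ℕ) : ℝ) / 2 ^ 200 := by
  have h1 := le_shr (p ^ 256) 10040
  have h2 : y ^ 256 ≤ ((p : ℝ) / 2 ^ 40) ^ 256 := pow_le_pow_left₀ hy h 256
  have e : ((p : ℝ) / 2 ^ 40) ^ 256 = (p : ℝ) ^ 256 / 2 ^ 10040 / 2 ^ 200 := by
    rw [div_pow, ← pow_mul, div_div, ← pow_add]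
  rw [e] at h2
  refine h2.trans ?_
  apply div_le_div_of_nonneg_right _ (by positivity)
  rw [Nat.cast_pow] at h1
  exact h1

theorem emX_spec (m : ℕ) : Real.exp (-((m : ℝ) / 2 ^ 40)) ≤ (emX m : ℝ) / 2 ^ 200 := by
  unfold emX
  simp only [ev_eq]
  set t := m >>> 8 with ht
  have ht1 : (t : ℝ) ≤ m / 2 ^ 8 := by rw [ht]; exact shr_le m 8
  have e1 : Real.exp (-((m : ℝ) / 2 ^ 40)) = Real.exp (-((m : ℝ) / 2 ^ 48)) ^ 256 := by
    rw [← pow256]
    congr 1
    ring
  rw [e1]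
  apply up256X (Real.exp_pos _).le
  have h2 : Real.exp (-((m : ℝ) / 2 ^ 48)) ≤ Real.exp (-((t : ℝ) / 2 ^ 40)) := by
    apply Real.exp_le_exp.2
    rw [neg_le_neg_iff, div_le_div_iff₀ (by positivity) (by positivity)]
    rw [le_div_iff₀ (by positivity)] at ht1
    nlinarith
  refine h2.trans ((exp_neg_le4 (by positivity)).trans ?_)
  rw [le_div_iff₀ (by positivity)]
  refine le_trans ?_ (real_le_div _ _ (by norm_num))
  rw [le_div_iff₀ (by norm_num)]
  refine le_trans (le_of_eq ?_) (sub_le_cast _ _)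
  push_cast
  ring

/-- upper bound of a weight at scale `2^200` -/
theorem emX_w {t LT j : ℕ} {l : ℝ} (h : (dg LT j : ℝ) / 2 ^ 40 ≤ l) :
    Real.exp (-((t : ℝ) / 2 ^ 23 * l)) ≤ (emX ((t * dg LT j) >>> 23) : ℝ) / 2 ^ 200 := by
  refine le_trans ?_ (emX_spec _)
  apply Real.exp_le_exp.2
  apply neg_le_neg
  have h1 := shr_le (t * dg LT j) 23
  rw [div_le_iff₀ (by positivity)]
  refine h1.trans ?_
  rw [div_le_iff₀ (by positivity), Nat.cast_mul]
  rw [div_le_iff₀ (by positivity)] at h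
  have h2 := mul_le_mul_of_nonneg_left h (Nat.cast_nonneg (α := ℝ) t)
  refine h2.trans (le_of_eq ?_)
  ring

end Pool.Agent.Lib.MP_af3a4a_an.P1.H28
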