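import Pool.Agent.Lib.MP_af3a4a_an.P1.H28.CellR
import Pool.Agent.Lib.MP_af3a4a_an.P1.H28.Cost
import Pool.Agent.Lib.MP_af3a4a_an.P1.H11.Need

/-!
# Soundness of the thresholds of the cells (council 2, helper28)
-/

set_option autoImplicit false

namespace Pool.Agent.Lib.MP_af3a4a_an.P1.H28

open Finset MeasureTheory
open Pool.Agent.Lib.MP_af3a4a_an.SV (uu av sq EE)
open Pool.Agent.Lib.MP_af3a4a_an.P1.H80
open Pool.Agent.Lib.MP_af3a4a_an.P1.CHK.H80
open Pool.Agent.Lib.MP_af3a4a_an.P1.CHK.Arith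
open Pool.Agent.Lib.MP_af3a4a_an.P1.H32
open Pool.Agent.Lib.MP_af3a4a_an.P1.H11

/-- the hypotheses of a column: `K = k/16`, `K⁻ = km/16`, `1 + μ₁ ∈ [A, B]/512` -/
structure ColH (k km A B : ℕ) (N : ℕ) (z w : Fin N → ℂ) (R : ℝ) (σ : Fin N → ℂ) : Prop where
  cfg : Cfg2 N z w R σ
  hN : 6 ≤ N
  hR : 29 / 12 ≤ R
  hk : 16 ≤ k
  hkm : km ≤ k
  hKN : (k : ℝ) / 16 ≤ N
  hA : (A : ℝ) / 512 ≤ 1 + (muR ((k : ℝ) / 16) R (uu w)).re
  hB : 1 + (muR ((k : ℝ) / 16) R (uu w)).re ≤ (B : ℝ) / 512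
  hK1 : (N : ℝ) ≤ (k : ℝ) / 16 * (R - (muR ((k : ℝ) / 16) R (uu w)).re)
  hK0 : (km : ℝ) / 16 * (R - 1 / R) -
    (k : ℝ) / 16 * ((muR ((k : ℝ) / 16) R (uu w)).re - 1 / R) ≤ N

section

variable {k km A B e0 e1 N : ℕ} {z w : Fin N → ℂ} {R : ℝ} {σ : Fin N → ℂ}

theorem muR_mul {K R : ℝ} {N : ℕ} {u : Fin N → ℂ} (hK : K ≠ 0) :
    K * (muR K R u).re = N * (av u).re - (N - K) / R := by
  have h1 : (K : ℂ) * muR K R u = (N : ℂ) * av u - (((N - K) / R : ℝ) : ℂ) := by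
    unfold muR
    rw [mul_div_cancel₀]
    exact_mod_cast hK
  have h2 := congrArg Complex.re h1
  rw [Complex.re_ofReal_mul, Complex.sub_re, Complex.ofReal_re] at h2
  rw [h2]
  congr 1
  have := Complex.re_ofReal_mul (N : ℝ) (av u)
  push_cast at this
  exact this

theorem ColH.om_le (H : ColH k km A B N z w R σ) : ∑ j, om R (uu w j) ≤ (k : ℝ) / 16 := by
  have hk := H.hk
  have hk' : (0 : ℝ) < (k : ℝ) / 16 := by
    have : (16 : ℝ) ≤ k := by exact_mod_cast hk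
    linarith
  exact cost_sum_le H.cfg H.hR (muR_mul hk'.ne') H.hK1

theorem ColH.rep (H : ColH k km A B N z w R σ) :
    RepR ((k : ℝ) / 16) (muR ((k : ℝ) / 16) R (uu w)) (QR ((k : ℝ) / 16) R (uu w)) := by
  have hk := H.hk
  have hk' : (0 : ℝ) < (k : ℝ) / 16 := by
    have : (16 : ℝ) ≤ k := by exact_mod_cast hk
    linarith
  have hR := H.hR
  have hu : ∀ j, ‖uu w j‖ ≤ 1 := by
    intro j
    have h1 := H.cfg.cfg.far j
    simp only [uu]
    rw [norm_inv]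
    exact inv_le_one_of_one_le₀ h1
  exact sweepR hk' (by linarith [H.hN]) (by linarith) hu H.om_le

theorem ColH.mu_abs (H : ColH k km A B N z w R σ) :
    |(muR ((k : ℝ) / 16) R (uu w)).re| ≤ 1 :=
  (Complex.abs_re_le_norm _).trans H.rep.m_le

/-- the parameter `T` -/
noncomputable def TT (k N : ℕ) (R : ℝ) : ℝ := ((N : ℝ) - (k : ℝ) / 16) / R

theorem ColH.T_nonneg (H : ColH k km A B N z w R σ) : 0 ≤ TT k N R := by
  have h := H.hKN
  have hR := H.hR
  unfold TT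
  apply div_nonneg <;> linarith

theorem ColH.t0_le (H : ColH k km A B N z w R σ) (h0 : (e0 : ℝ) / 1024 ≤ 1 / R)
    (h1 : 1 / R ≤ (e1 : ℝ) / 1024) : (t0F k km e0 e1 B : ℝ) / 2 ^ 23 ≤ TT k N R := by
  have hT := H.T_nonneg
  have hR := H.hR
  have hRp : 0 < R := by linarith
  set ε := 1 / R with hε
  have hε0 : 0 < ε := by rw [hε]; positivity
  have hRε : R * ε = 1 := by rw [hε]; field_simp
  set K : ℝ := (k : ℝ) / 16 with hK
  set Km : ℝ := (km : ℝ) / 16 with hKm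
  set μ := (muR K R (uu w)).re with hμ
  have hk := H.hk
  have hK1' : 1 ≤ K := by
    have : (16 : ℝ) ≤ k := by exact_mod_cast hk
    rw [hK]
    linarith
  have hkm : Km ≤ K := by
    have : (km : ℝ) ≤ k := by exact_mod_cast H.hkm
    rw [hK, hKm]
    linarith
  have hμ1 : -1 ≤ μ := (abs_le.1 H.mu_abs).1
  have hT' : TT k N R = ε * (N - K) := by
    unfold TT
    rw [hε, hK]
    ring
  have hTp : (0 : ℝ) ≤ TT k N R * 2 ^ 23 := by positivity
  rw [div_le_iff₀ (by positivity)]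
  unfold t0F
  rw [ev_eq, ev_eq, ev_eq, ev_eq]
  -- the three numbers
  have ha : ((km <<< 19 - k * e1 * B : ℕ) : ℝ) ≤ TT k N R * 2 ^ 23 := by
    apply cast_sub_le _ _ hTp
    have h2 := H.hK0
    have h3 := H.hB
    rw [← hK, ← hKm, ← hμ, ← hε] at h2
    rw [← hK, ← hμ] at h3
    have h4 : Km - K * ε * (1 + μ) ≤ TT k N R := by
      rw [hT']
      have h5 : ε * (Km * (R - ε) - K * (μ - ε) - K) ≤ ε * (N - K) :=
        mul_le_mul_of_nonneg_left (by linarith) hε0.le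
      have h6 : ε * (Km * (R - ε) - K * (μ - ε) - K) =
          Km * (R * ε) - K * ε * (1 + μ) + (K - Km) * ε ^ 2 := by ring
      rw [h6, hRε] at h5
      have h7 : 0 ≤ (K - Km) * ε ^ 2 := mul_nonneg (by linarith) (by positivity)
      linarith
    have h5 : K * ε * (1 + μ) ≤ K * ((e1 : ℝ) / 1024) * ((B : ℝ) / 512) := by
      apply mul_le_mul _ h3 (by linarith) (by positivity)
      exact mul_le_mul_of_nonneg_left h1 (by linarith)
    have h6 : Km - K * ((e1 : ℝ) / 1024) * ((B : ℝ) / 512) ≤ TT k N R := by linarith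
    have h7 := mul_le_mul_of_nonneg_right h6 (by positivity : (0 : ℝ) ≤ 2 ^ 23)
    refine le_trans (le_of_eq ?_) h7
    rw [Nat.shiftLeft_eq, hK, hKm]
    push_cast
    ring
  have hb : (((96 - k) * e0) <<< 9 : ℕ) ≤ TT k N R * 2 ^ 23 := by
    rcases le_total k 96 with h | h
    · have h2 : (6 : ℝ) ≤ N := by exact_mod_cast H.hN
      have h3 : ((e0 : ℝ) / 1024) * (6 - K) ≤ TT k N R := by
        rw [hT']
        have h4 : 0 ≤ 6 - K := by
          have : (k : ℝ) ≤ 96 := by exact_mod_cast h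
          rw [hK]
          linarith
        calc (e0 : ℝ) / 1024 * (6 - K) ≤ ε * (6 - K) := mul_le_mul_of_nonneg_right h0 h4
          _ ≤ ε * (N - K) := mul_le_mul_of_nonneg_left (by linarith) hε0.le
      have h7 := mul_le_mul_of_nonneg_right h3 (by positivity : (0 : ℝ) ≤ 2 ^ 23)
      refine le_trans (le_of_eq ?_) h7
      rw [Nat.shiftLeft_eq, hK]
      push_cast [Nat.cast_sub h]
      ring
    · rw [Nat.sub_eq_zero_of_le h, zero_mul, Nat.shiftLeft_eq, zero_mul, Nat.cast_zero]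
      exact hTp
  have hc : ((16777216 - ((k + 32) * e1) <<< 9 : ℕ) : ℝ) ≤ TT k N R * 2 ^ 23 := by
    apply cast_sub_le _ _ hTp
    have h2 := large_R H.cfg
    have h3 : 2 - (K + 2) * ε ≤ TT k N R := by
      rw [hT']
      have h5 : ε * (2 * R - 2 - K) ≤ ε * (N - K) :=
        mul_le_mul_of_nonneg_left (by linarith) hε0.le
      have h6 : ε * (2 * R - 2 - K) = 2 * (R * ε) - (K + 2) * ε := by ring
      rw [h6, hRε] at h5
      linarith
    have h4 : (K + 2) * ε ≤ (K + 2) * ((e1 : ℝ) / 1024) :=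
      mul_le_mul_of_nonneg_left h1 (by linarith)
    have h6 : 2 - (K + 2) * ((e1 : ℝ) / 1024) ≤ TT k N R := by linarith
    have h7 := mul_le_mul_of_nonneg_right h6 (by positivity : (0 : ℝ) ≤ 2 ^ 23)
    refine le_trans (le_of_eq ?_) h7
    rw [Nat.shiftLeft_eq, hK]
    push_cast
    ring
  generalize km <<< 19 - k * e1 * B = a at ha
  generalize ((96 - k) * e0) <<< 9 = b at hb
  generalize 16777216 - ((k + 32) * e1) <<< 9 = c at hc
  rcases le_total (a + (b - a)) c with h | h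
  · rw [Nat.add_sub_of_le h]
    exact hc
  · rw [Nat.sub_eq_zero_of_le h, add_zero]
    rcases le_total a b with h' | h'
    · rw [Nat.add_sub_of_le h']
      exact hb
    · rw [Nat.sub_eq_zero_of_le h', add_zero]
      exact ha

theorem ColH.le_t1 (H : ColH k km A B N z w R σ) (h0 : (e0 : ℝ) / 1024 ≤ 1 / R) :
    TT k N R ≤ (t1F k e0 A : ℝ) / 2 ^ 23 := by
  have hR := H.hR
  have hRp : 0 < R := by linarith
  set ε := 1 / R with hε
  have hε0 : 0 < ε := by rw [hε]; positivity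
  have hRε : R * ε = 1 := by rw [hε]; field_simp
  set K : ℝ := (k : ℝ) / 16 with hK
  set μ := (muR K R (uu w)).re with hμ
  have hK0 : 0 ≤ K := by rw [hK]; positivity
  have hT' : TT k N R = ε * (N - K) := by
    unfold TT
    rw [hε, hK]
    ring
  have h2 := H.hK1
  have h3 := H.hA
  rw [← hK, ← hμ] at h2 h3
  have h4 : TT k N R ≤ K * (1 - ε * (1 + μ)) := by
    rw [hT']
    have h5 : ε * (N - K) ≤ ε * (K * (R - μ) - K) :=
      mul_le_mul_of_nonneg_left (by linarith) hε0.le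
    have h6 : ε * (K * (R - μ) - K) = K * (R * ε - ε * (1 + μ)) := by ring
    rw [h6, hRε] at h5
    exact h5
  have h5 : (e0 : ℝ) / 1024 * ((A : ℝ) / 512) ≤ ε * (1 + μ) :=
    mul_le_mul h0 h3 (by positivity) hε0.le
  have h6 : TT k N R ≤ K * (1 - (e0 : ℝ) / 1024 * ((A : ℝ) / 512)) :=
    h4.trans (mul_le_mul_of_nonneg_left (by linarith) hK0)
  refine h6.trans ?_
  rw [le_div_iff₀ (by positivity)]
  unfold t1F
  refine le_trans (le_of_eq ?_) (sub_le_cast _ _)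
  rw [Nat.shiftLeft_eq, hK]
  push_cast
  ring

theorem ColH.nf_ge (H : ColH k km A B N z w R σ) {t : ℕ} (ht : (t : ℝ) / 2 ^ 23 ≤ TT k N R)
    (h0 : (e0 : ℝ) / 1024 ≤ 1 / R) :
    ((t + ((k + 16) * e0) <<< 9 : ℕ) : ℝ) / 2 ^ 23 ≤ ((N : ℝ) + 1) / R := by
  have hR := H.hR
  have hRp : 0 < R := by linarith
  have h1 : ((N : ℝ) + 1) / R = TT k N R + ((k : ℝ) / 16 + 1) * (1 / R) := by
    unfold TT
    field_simp
    ring
  have h2 : ((k : ℝ) / 16 + 1) * ((e0 : ℝ) / 1024) ≤ ((k : ℝ) / 16 + 1) * (1 / R) :=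
    mul_le_mul_of_nonneg_left h0 (by positivity)
  rw [h1]
  have h3 : ((t + ((k + 16) * e0) <<< 9 : ℕ) : ℝ) / 2 ^ 23 =
      (t : ℝ) / 2 ^ 23 + ((k : ℝ) / 16 + 1) * ((e0 : ℝ) / 1024) := by
    rw [Nat.shiftLeft_eq]
    push_cast
    ring
  rw [h3]
  linarith

theorem ColH.n0_le (H : ColH k km A B N z w R σ) {t : ℕ} (ht : (t : ℝ) / 2 ^ 23 ≤ TT k N R)
    (h1 : 1 / R ≤ (e1 : ℝ) / 1024) : n0F k t e1 ≤ N := by
  have hR := H.hR
  have hRp : 0 < R := by linarith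
  have he1 : (0 : ℝ) < (e1 : ℝ) / 1024 := lt_of_lt_of_le (by positivity) h1
  have he1n : 0 < e1 := by
    have : (0 : ℝ) < e1 := by linarith
    exact_mod_cast this
  have h2 : (k : ℝ) / 16 + (t : ℝ) / 2 ^ 23 / ((e1 : ℝ) / 1024) ≤ N := by
    have h3 : (N : ℝ) = (k : ℝ) / 16 + TT k N R * R := by
      unfold TT
      field_simp
      ring
    rw [h3]
    have h4 : 1 / ((e1 : ℝ) / 1024) ≤ R := by
      rw [div_le_iff₀ he1]
      rw [div_le_iff₀ hRp] at h1
      linarith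
    have h5 : (t : ℝ) / 2 ^ 23 / ((e1 : ℝ) / 1024) = (t : ℝ) / 2 ^ 23 * (1 / ((e1 : ℝ) / 1024)) := by
      ring
    rw [h5]
    have h6 := mul_le_mul ht h4 (by positivity) H.T_nonneg
    linarith
  have h3 : (k * e1) <<< 9 + t ≤ N * (8192 * e1) := by
    have h4 : (((k * e1) <<< 9 + t : ℕ) : ℝ) ≤ ((N * (8192 * e1) : ℕ) : ℝ) := by
      rw [Nat.shiftLeft_eq]
      push_cast
      have h5 := mul_le_mul_of_nonneg_right h2 (by positivity : (0 : ℝ) ≤ 8192 * e1)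
      have h6 : ((k : ℝ) / 16 + (t : ℝ) / 2 ^ 23 / ((e1 : ℝ) / 1024)) * (8192 * e1) =
          k * e1 * 2 ^ 9 + t := by
        have : (e1 : ℝ) ≠ 0 := by
          have : (0 : ℝ) < e1 := by exact_mod_cast he1n
          exact this.ne'
        field_simp
        ring
      rw [h6] at h5
      linarith
    exact_mod_cast h4
  unfold n0F
  rw [ev_eq]
  have h4 : ((k * e1) <<< 9 + t + (8192 * e1 - 1)) / (8192 * e1) ≤ N := by
    have hD : 0 < 8192 * e1 := by omega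
    generalize 8192 * e1 = D at h3 hD
    rw [← Nat.lt_succ_iff, Nat.div_lt_iff_lt_mul hD, Nat.succ_mul]
    omega
  have h5 := H.hN
  omega

end

end Pool.Agent.Lib.MP_af3a4a_an.P1.H28
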