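import Pool.Agent.Lib.MP_af3a4a_an.P1.H28.CellS
import Pool.Agent.Lib.MP_af3a4a_an.P1.H11.GaNd

/-!
# Soundness of one cell (council 2, helper28)
-/

set_option autoImplicit false

namespace Pool.Agent.Lib.MP_af3a4a_an.P1.H28

open Finset MeasureTheory
open Pool.Agent.Lib.MP_af3a4a_an.SV (uu av sq EE)
open Pool.Agent.Lib.MP_af3a4a_an.P1.H80
open Pool.Agent.Lib.MP_af3a4a_an.P1.CHK.H80
open Pool.Agent.Lib.MP_af3a4a_an.P1.CHK.Arith
open Pool.Agent.Lib.MP_af3a4a_an.P1.CHK.CurveK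
open Pool.Agent.Lib.MP_af3a4a_an.P1.H32
open Pool.Agent.Lib.MP_af3a4a_an.P1.H11

/-! ### digits of the table of `ga` -/

theorem gaF_lt {e k : ℕ} (he : e ≤ 424) (hk : k < 24) :
    gaF e k < 340282366920938463463374607431768211456 := by
  unfold gaF
  simp only [ev_eq]
  have hP : 8 * (128 * (9 + k) - e) ≤ 33792 := by omega
  have hQ : 8192 - e * (9 + k) ≤ 8192 := Nat.sub_le _ _
  generalize 8 * (128 * (9 + k) - e) = P at hP
  generalize 8192 - e * (9 + k) = Q at hQ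
  have h1 : P * P ≤ 33792 * 33792 := Nat.mul_le_mul hP hP
  have h2 : Q * Q ≤ 8192 * 8192 := Nat.mul_le_mul hQ hQ
  have h3 : P * Q ≤ 33792 * 8192 := Nat.mul_le_mul hP hQ
  have hD : P * P + Q * Q + 4 * (P * Q) ≤ 2316304384 := by omega
  generalize P * P + Q * Q + 4 * (P * Q) = D at hD
  have hY : 1024 * e * D - 3 * (P * Q) * (1048576 - e * e) ≤ 1024 * 424 * 2316304384 :=
    (Nat.sub_le _ _).trans (Nat.mul_le_mul (Nat.mul_le_mul_left _ he) hD)
  generalize 1024 * e * D - 3 * (P * Q) * (1048576 - e * e) = Y at hY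
  have h4 : P * P - Q * Q ≤ 33792 * 33792 := (Nat.sub_le _ _).trans h1
  have h5 : (P * P - Q * Q) * Y ≤ 33792 * 33792 * (1024 * 424 * 2316304384) :=
    Nat.mul_le_mul h4 hY
  cases Nat.beq Y 0 with
  | true => rw [cond_true]; norm_num
  | false =>
    rw [cond_false, Nat.shiftLeft_eq]
    generalize P * Q * (1048576 - e * e) * D = F
    have h6 : (P * P - Q * Q) * Y * 2 ^ 40 / F ≤
        33792 * 33792 * (1024 * 424 * 2316304384) * 2 ^ 40 :=
      (Nat.div_le_self _ _).trans (Nat.mul_le_mul_right _ h5)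
    norm_num at h6 ⊢
    omega

/-! ### the sum over the tail -/

/-- weight at the node `i` -/
def Wx (t LT i : ℕ) : ℕ := emX ((t * dg LT i) >>> 23)

/-- factor of the cell `i` -/
def gx (k GA i : ℕ) : ℕ :=
  bif Nat.beq (dg GA i) 0 then 1099511627776 else ep ((k * dg GA i) >>> 4 + 1)

/-- the second weight of the cell `i` -/
def Wy (t LT : ℕ) (cv : Bool) (i : ℕ) : ℕ := bif cv then Wx t LT (i + 1) else Wx t LT i

theorem tlT_eq (k t : ℕ) (cv : Bool) (LT GA EE : ℕ) : ∀ j acc : ℕ,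
    tlT k t cv LT GA EE j (Wx t LT j) (dg EE j) acc = acc + ∑ i ∈ range j, gx k GA i *
      (Wx t LT i * (2 * dg EE i + dg EE (i + 1)) +
        Wy t LT cv i * (2 * dg EE (i + 1) + dg EE i)) := by
  intro j
  induction j with
  | zero => intro acc; simp [tlT]
  | succ j ih =>
    intro acc
    unfold tlT
    simp only [ev_eq]
    have h := ih (acc + gx k GA j * (Wx t LT j * (2 * dg EE j + dg EE (j + 1)) +
        Wy t LT cv j * (2 * dg EE (j + 1) + dg EE j)))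
    rw [sum_range_succ]
    unfold Wy gx Wx at h ⊢
    rw [h]
    ring

/-- the real numbers of the tail -/
noncomputable def rE (EE i : ℕ) : ℝ := (dg EE i : ℝ) / 2 ^ 40

theorem tlS_eq (k t : ℕ) (cv : Bool) (LT GA EE nt : ℕ) :
    (tlS k t cv LT GA EE nt : ℝ) / (48 * (2 ^ 80 * 2 ^ 200)) =
      tailS nt (fun i => (gx k GA i : ℝ) / 2 ^ 40) (rE EE) (fun i => (Wx t LT i : ℝ) / 2 ^ 200)
        (fun i => (Wy t LT cv i : ℝ) / 2 ^ 200) := by
  unfold tlS
  rw [ev_eq, ev_eq]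
  have h := tlT_eq k t cv LT GA EE nt 0
  rw [zero_add] at h
  unfold Wx at h ⊢
  rw [h]
  unfold tailS rE
  rw [Nat.cast_sum, sum_div]
  apply sum_congr rfl
  intro i _
  push_cast
  ring

/-! ### the data of a cell -/

/-- left weights -/
def wa (t LD i : ℕ) : ℕ := wwD t LD i

/-- right weights -/
def wb (t LD : ℕ) (cv : Bool) (i : ℕ) : ℕ := bif cv then wwD t LD (i + 1) else wwD t LD i

/-- what the curve checker says about a leaf -/
structure LeafH (Qf : ℝ → ℂ) (φ : ℝ) (J0 J1 : ℕ) (p n1 n2 : ℕ → ℕ) : Prop where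
  hJ : J0 + J1 = 31
  pb : ∀ j < J0, p j < 1208925819614629174706176
  n1b : ∀ j < J1, n1 j < 1208925819614629174706176
  n2b : ∀ j < J1, n2 j < 1208925819614629174706176
  hp : ∀ j < J0, PosCell Qf φ (xn j) (xn (j + 1)) ((p j : ℝ) / (32 * 2 ^ 40))
  hn : ∀ j < J1, NegCell Qf φ (xn (J0 + j)) (xn (J0 + j + 1)) ((n1 j : ℝ) / (32 * 2 ^ 40))
    ((n2 j : ℝ) / (32 * 2 ^ 40))

/-- what is known about the cell of `ε` -/
structure EpsH (R : ℝ) (e0 e1 HS LD : ℕ) : Prop where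
  h0 : (e0 : ℝ) / 1024 ≤ 1 / R
  h1 : 1 / R ≤ (e1 : ℝ) / 1024
  hle : e1 ≤ 424
  hHS : HS = PK (hsD e1) 31
  hLD : LD = PK (fun i => lL e0 i) 32

section

variable {k km A B e0 e1 N : ℕ} {z w : Fin N → ℂ} {R : ℝ} {σ : Fin N → ℂ} {HS LD : ℕ} {φ : ℝ}
  {J0 J1 : ℕ} {p n1 n2 : ℕ → ℕ} {EL E0 : ℝ}

theorem EpsH.le01 (hE : EpsH R e0 e1 HS LD) : e0 ≤ e1 := by
  have h := hE.h0.trans hE.h1
  rw [div_le_div_iff_of_pos_right (by norm_num)] at h
  exact_mod_cast h

theorem EpsH.dgHS (hE : EpsH R e0 e1 HS LD) (hR : 1 < R) {j : ℕ} (hj : j < 31) :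
    (el R (xn j) + el R (xn (j + 1))) / 2 ≤ (dg HS j : ℝ) / 2 ^ 40 := by
  have hle := hE.hle
  have hb : ∀ i ≤ 31, e1 * i < 32768 := fun i hi =>
    lt_of_le_of_lt (Nat.mul_le_mul hle hi) (by norm_num)
  rw [hE.hHS, dg_PK _ hj]
  · have h1 := lU_spec (R := R) (j := j) (by linarith) hE.h1 (hb j (by omega))
    have h2 := lU_spec (R := R) (j := j + 1) (by linarith) hE.h1 (hb (j + 1) (by omega))
    unfold hsD xn
    have h3 := le_shr (lU e1 (j + 1) + lU e1 j) 1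
    rw [le_div_iff₀ (by positivity)] at h1 h2 ⊢
    refine le_trans ?_ h3
    rw [le_div_iff₀ (by positivity)]
    push_cast at h1 h2 ⊢
    linarith
  · intro i hi
    have h1 := lU_lt (e := e1) (hb (i + 1) (by omega)) (by omega)
    have h2 := lU_lt (e := e1) (hb i (by omega)) (by omega)
    unfold hsD
    rw [Nat.shiftRight_eq_div_pow]
    have h3 : (lU e1 (i + 1) + lU e1 i) / 2 ^ 1 ≤ lU e1 (i + 1) + lU e1 i := Nat.div_le_self _ _
    norm_num at h1 h2 h3 ⊢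
    omega

theorem dgLD (hE : EpsH R e0 e1 HS LD) (hR : 1 < R) {j : ℕ} (hj : j < 32) :
    (dg LD j : ℝ) / 2 ^ 40 ≤ el R (xn j) := by
  have hle := hE.le01.trans hE.hle
  rw [hE.hLD, dg_PK _ hj]
  · apply lL_spec (by linarith) hE.h0
    have h1 : xn j < 1 := xn_lt (by omega)
    unfold xn at h1
    linarith
  · intro i hi
    have h1 := lL_lt (e := e0) (j := i)
      (lt_of_le_of_lt (Nat.mul_le_mul hle (by omega : i ≤ 32)) (by norm_num)) (by omega)
    norm_num at h1 ⊢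
    omega

/-- **the data of `COMB`** -/
theorem comb_of (H : ColH k km A B N z w R σ) (hE : EpsH R e0 e1 HS LD) {t : ℕ}
    (ht : (t : ℝ) / 2 ^ 23 ≤ TT k N R)
    (hL : LeafH (QR ((k : ℝ) / 16) R (uu w)) φ J0 J1 p n1 n2)
    (hEL : GK ((k : ℝ) / 16) (muR ((k : ℝ) / 16) R (uu w)).re (xn 31) ≤ EL)
    (hE0 : GK ((k : ℝ) / 16) (muR ((k : ℝ) / 16) R (uu w)).re 1 ≤ E0) :
    CombH (qq (uu w)) (QR ((k : ℝ) / 16) R (uu w)) R (TT k N R) ((t : ℝ) / 2 ^ 23)
      ((k : ℝ) / 16) (muR ((k : ℝ) / 16) R (uu w)).re φ J0 J1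
      (fun j => (p j : ℝ) / (32 * 2 ^ 40)) (fun j => (ssD t HS j : ℝ) / 2 ^ 40)
      (fun j => (n1 j : ℝ) / (32 * 2 ^ 40)) (fun j => (n2 j : ℝ) / (32 * 2 ^ 40))
      (fun i => (wa t LD i : ℝ) / 2 ^ 40)
      (fun i => (wb t LD (Nat.ble (e1 <<< 13) t) i : ℝ) / 2 ^ 40) EL E0 := by
  have hR := H.hR
  have hR1 : 1 < R := by linarith
  have hW : ∀ j : ℕ, j < 32 →
      Wf R ((t : ℝ) / 2 ^ 23) (xn j) ≤ (wwD t LD j : ℝ) / 2 ^ 40 := by
    intro j hj
    unfold Wf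
    exact wwD_spec (dgLD hE hR1 hj)
  refine
    { hR := hR1
      hK := ?_
      hμ := H.mu_abs
      hT0 := by positivity
      hT := ht
      hq := qq_cont _
      hQ := fun x _ _ => qq_eq_Wf (by linarith) x
      hJ := hL.hJ
      hp := hL.hp
      hp0 := fun j _ => by positivity
      hs := ?_
      hn := hL.hn
      hWa := ?_
      hWb := ?_
      hlast := ?_
      hEL := hEL
      hE0 := hE0 }
  · have : (16 : ℝ) ≤ k := by exact_mod_cast H.hk
    linarith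
  · intro j hj
    have hJ := hL.hJ
    exact ssD_spec (hE.dgHS hR1 (by omega))
  · intro j hj
    have hJ := hL.hJ
    exact hW _ (by omega)
  · intro j hj
    have hJ := hL.hJ
    by_cases hb : Nat.ble (e1 <<< 13) t = true
    · left
      constructor
      · have h1 := Nat.le_of_ble_eq_true hb
        rw [Nat.shiftLeft_eq] at h1
        have h2 : ((e1 * 2 ^ 13 : ℕ) : ℝ) ≤ t := by exact_mod_cast h1
        push_cast at h2
        have h3 : (e1 : ℝ) / 1024 ≤ (t : ℝ) / 2 ^ 23 := by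
          rw [div_le_div_iff₀ (by norm_num) (by positivity)]
          linarith
        have h4 := hE.h1.trans h3
        rw [div_le_iff₀ (by linarith)] at h4
        exact h4
      · rw [hb]
        exact hW _ (by omega)
    · right
      rw [Bool.not_eq_true] at hb
      rw [hb]
      exact hW _ (by omega)
  · intro x hx0 hx1
    exact RepR_norm_GK H.rep ((xn_nonneg 31).trans hx0) hx1

/-- the dot products -/
theorem dots (hL : LeafH (QR ((k : ℝ) / 16) R (uu w)) φ J0 J1 p n1 n2) {t TH : ℕ} {cv : Bool}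
    (h : Nat.ble (dotN (HN n1 J1) (PK (wwD t LD) 32 >>> (128 * J0)) J1 +
      dotN (HN n2 J1) ((bif cv then PK (wwD t LD) 32 >>> 128 else PK (wwD t LD) 32) >>>
        (128 * J0)) J1 + TH) (dotN (HN p J0) (PK (ssD t HS) 31) J0) = true) :
    (TH : ℝ) / 2 ^ 85 ≤ ∑ j ∈ range J0, (p j : ℝ) / (32 * 2 ^ 40) * ((ssD t HS j : ℝ) / 2 ^ 40) -
      ∑ j ∈ range J1, ((n1 j : ℝ) / (32 * 2 ^ 40) * ((wa t LD (J0 + j) : ℝ) / 2 ^ 40) +
        (n2 j : ℝ) / (32 * 2 ^ 40) * ((wb t LD cv (J0 + j) : ℝ) / 2 ^ 40)) := by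
  have hJ := hL.hJ
  have hw : ∀ j, wwD t LD j ≤ 1099511627776 := fun j => emM_le _
  have hw' : ∀ j, wwD t LD j < 340282366920938463463374607431768211456 := fun j =>
    lt_of_le_of_lt (hw j) (by norm_num)
  have e1 : dotN (HN p J0) (PK (ssD t HS) 31) J0 = ∑ j ∈ range J0, p j * ssD t HS j :=
    dotN_eq (by omega) (by omega) hL.pb fun j _ => ssD_le t HS j
  have e2 : dotN (HN n1 J1) (PK (wwD t LD) 32 >>> (128 * J0)) J1 =
      ∑ j ∈ range J1, n1 j * wa t LD (J0 + j) := by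
    rw [PK_shift (fun j _ => hw' j) (by omega)]
    exact dotN_eq (by omega) (by omega) hL.n1b fun j _ => hw _
  have e3 : dotN (HN n2 J1) ((bif cv then PK (wwD t LD) 32 >>> 128 else PK (wwD t LD) 32) >>>
      (128 * J0)) J1 = ∑ j ∈ range J1, n2 j * wb t LD cv (J0 + j) := by
    cases cv with
    | true =>
      have h1 : PK (wwD t LD) 32 >>> 128 = PK (fun j => wwD t LD (1 + j)) 31 :=
        PK_shift (f := wwD t LD) (n := 32) (fun j _ => hw' j) (i := 1) (by omega)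
      rw [cond_true, h1, PK_shift (fun j _ => hw' _) (by omega),
        dotN_eq (by omega) (by omega) hL.n2b fun j _ => hw _]
      apply sum_congr rfl
      intro j _
      unfold wb
      rw [cond_true, add_comm 1 (J0 + j)]
    | false =>
      rw [cond_false, PK_shift (fun j _ => hw' j) (by omega),
        dotN_eq (by omega) (by omega) hL.n2b fun j _ => hw _]
      rfl
  have h1 := Nat.le_of_ble_eq_true h
  rw [e1, e2, e3] at h1
  have h2 : ((∑ j ∈ range J1, n1 j * wa t LD (J0 + j) + ∑ j ∈ range J1, n2 j * wb t LD cv (J0 + j)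
      + TH : ℕ) : ℝ) ≤ ((∑ j ∈ range J0, p j * ssD t HS j : ℕ) : ℝ) := by exact_mod_cast h1
  push_cast at h2
  have h3 : ∑ j ∈ range J0, (p j : ℝ) / (32 * 2 ^ 40) * ((ssD t HS j : ℝ) / 2 ^ 40) =
      (∑ j ∈ range J0, (p j : ℝ) * (ssD t HS j : ℝ)) / 2 ^ 85 := by
    rw [sum_div]
    apply sum_congr rfl
    intro j _
    ring
  have h4 : ∑ j ∈ range J1, ((n1 j : ℝ) / (32 * 2 ^ 40) * ((wa t LD (J0 + j) : ℝ) / 2 ^ 40) +
        (n2 j : ℝ) / (32 * 2 ^ 40) * ((wb t LD cv (J0 + j) : ℝ) / 2 ^ 40)) =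
      (∑ j ∈ range J1, (n1 j : ℝ) * (wa t LD (J0 + j) : ℝ) +
        ∑ j ∈ range J1, (n2 j : ℝ) * (wb t LD cv (J0 + j) : ℝ)) / 2 ^ 85 := by
    rw [← sum_add_distrib, sum_div]
    apply sum_congr rfl
    intro j _
    ring
  rw [h3, h4, ← sub_div]
  apply div_le_div_of_nonneg_right _ (by positivity)
  linarith

end

end Pool.Agent.Lib.MP_af3a4a_an.P1.H28
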