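import Pool.Agent.Lib.MP_af3a4a_an.P1.H28.CellT

/-!
# Soundness of the cells, leaves and columns (council 2, helper28)
-/

set_option autoImplicit false

namespace Pool.Agent.Lib.MP_af3a4a_an.P1.H28

open Finset MeasureTheory
open Pool.Agent.Lib.MP_af3a4a_an.SV (uu av sq EE)
open Pool.Agent.Lib.MP_af3a4a_an.P1.H80
open Pool.Agent.Lib.MP_af3a4a_an.P1.CHK.H80
open Pool.Agent.Lib.MP_af3a4a_an.P1.CHK.Arith
open Pool.Agent.Lib.MP_af3a4a_an.P1.CHK.CurveK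
open Pool.Agent.Lib.MP_af3a4a_an.P1.H32
open Pool.Agent.Lib.MP_af3a4a_an.P1.H11

section

variable {k km A B e0 e1 N : ℕ} {z w : Fin N → ℂ} {R : ℝ} {σ : Fin N → ℂ} {HS LD : ℕ} {φ : ℝ}
  {J0 J1 : ℕ} {p n1 n2 : ℕ → ℕ}

/-- **the last factor** -/
theorem ndF_spec {T nf l : ℝ} {t t1 L1 v : ℕ} (h0 : (t : ℝ) / 2 ^ 23 ≤ T)
    (h1 : T ≤ (t1 : ℝ) / 2 ^ 23) (hl0 : 0 ≤ l) (hl : l ≤ (L1 : ℝ) / 2 ^ 40)
    (hnf1 : 1 ≤ t + ((k + 16) * e0) <<< 9)
    (hnf : ((t + ((k + 16) * e0) <<< 9 : ℕ) : ℝ) / 2 ^ 23 ≤ nf) :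
    (v : ℝ) / 2 ^ 40 ≤ nf * Real.exp (-((T - (t : ℝ) / 2 ^ 23) * l)) *
      ((ndF k e0 t t1 L1 v : ℝ) / 2 ^ 85) := by
  have ht : t ≤ t1 := by
    have h2 := h0.trans h1
    rw [div_le_div_iff_of_pos_right (by positivity)] at h2
    exact_mod_cast h2
  unfold ndF
  generalize t + ((k + 16) * e0) <<< 9 = M at hnf1 hnf
  have hM : (0 : ℝ) < M := by
    have : (1 : ℝ) ≤ M := by exact_mod_cast hnf1
    linarith only [this]
  set F := ep (((t1 - t) * L1) >>> 23 + 1) with hF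
  have h2 : Real.exp ((T - (t : ℝ) / 2 ^ 23) * l) ≤ (F : ℝ) / 2 ^ 40 := by
    refine le_trans ?_ (ep_spec _)
    apply Real.exp_le_exp.2
    have h3 := le_shr ((t1 - t) * L1) 23
    rw [le_div_iff₀ (by positivity)]
    refine le_trans ?_ h3
    rw [le_div_iff₀ (by positivity), Nat.cast_mul, Nat.cast_sub ht]
    have h4 : T - (t : ℝ) / 2 ^ 23 ≤ ((t1 : ℝ) - t) / 2 ^ 23 := by
      rw [sub_div]
      linarith only [h1]
    have h5 := mul_le_mul h4 hl hl0 (by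
      apply div_nonneg _ (by positivity)
      have : (t : ℝ) ≤ t1 := by exact_mod_cast ht
      linarith only [h0, h1])
    have h6 := mul_le_mul_of_nonneg_right h5 (by positivity : (0 : ℝ) ≤ 2 ^ 40 * 2 ^ 23)
    refine le_trans (le_of_eq ?_) (h6.trans (le_of_eq ?_))
    · ring
    · field_simp
  have h3 := real_le_div ((F * v) <<< 28) M (by exact_mod_cast hM)
  rw [Nat.shiftLeft_eq] at h3 ⊢
  push_cast at h3 ⊢
  set W := ((F * v * 2 ^ 28 / M : ℕ) : ℝ) + 1 with hW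
  have h4 : (F : ℝ) * v * 2 ^ 28 / M ≤ W := by
    rw [hW]
    exact_mod_cast h3
  have hE := Real.exp_pos (-((T - (t : ℝ) / 2 ^ 23) * l))
  have h5 : 1 ≤ Real.exp (-((T - (t : ℝ) / 2 ^ 23) * l)) * ((F : ℝ) / 2 ^ 40) := by
    have h6 := mul_le_mul_of_nonneg_left h2 hE.le
    rwa [← Real.exp_add, neg_add_cancel, Real.exp_zero] at h6
  generalize Real.exp (-((T - (t : ℝ) / 2 ^ 23) * l)) = E at hE h5
  have h6 : (M : ℝ) / 2 ^ 23 * E * (((F : ℝ) * v * 2 ^ 28 / M) / 2 ^ 85) ≤ nf * E * (W / 2 ^ 85) := by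
    apply mul_le_mul
    · exact mul_le_mul_of_nonneg_right hnf hE.le
    · exact div_le_div_of_nonneg_right h4 (by positivity)
    · positivity
    · have : 0 ≤ nf := le_trans (by positivity) hnf
      positivity
  refine le_trans ?_ h6
  have h7 : (M : ℝ) / 2 ^ 23 * E * (((F : ℝ) * v * 2 ^ 28 / M) / 2 ^ 85) =
      v / 2 ^ 40 * (E * (F / 2 ^ 40)) := by
    field_simp
  rw [h7]
  exact le_mul_of_one_le_right (by positivity) h5

theorem el_le_L1 (hE : EpsH R e0 e1 HS LD) (hR : 1 < R) {j : ℕ} (hj : j ≤ 31) :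
    el R (xn j) ≤ (lU e1 32 : ℝ) / 2 ^ 40 := by
  have h1 := lU_spec (R := R) (j := 32) (by linarith only [hR]) hE.h1
    (lt_of_le_of_lt (Nat.mul_le_mul_right 32 hE.hle) (by norm_num))
  norm_num at h1
  have h2 : el R (xn j) ≤ el R 1 :=
    el_mono (by linarith only [hR]) (xn_nonneg j) (xn_lt hj).le hR
  norm_num
  linarith only [h1, h2]

/-- tail weights -/
theorem Wx_spec {nt m LT t : ℕ} (hR : 1 < R) (h0 : (e0 : ℝ) / 1024 ≤ 1 / R)
    (hLT : LT = PK (fun i => lL e0 (32 + 4 * i)) m) (hm : m ≤ 25)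
    (hnt : nt < m) (hxR : Xn nt < R)
    (hm' : ∀ i < m, e0 * (32 + 4 * i) < 32768) :
    Wf R ((t : ℝ) / 2 ^ 23) (Xn nt) ≤ (Wx t LT nt : ℝ) / 2 ^ 200 := by
  unfold Wf Wx
  apply emX_w
  rw [hLT, dg_PK _ hnt]
  · have h1 := lL_spec (R := R) (e := e0) (j := 32 + 4 * nt) (by linarith only [hR]) h0 ?_
    · have h2 : (((32 + 4 * nt : ℕ) : ℝ)) / 32 = Xn nt := by
        unfold Xn
        push_cast
        ring
      rwa [h2] at h1
    · unfold Xn at hxR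
      push_cast
      linarith only [hxR]
  · intro i hi
    have h1 := lL_lt (e := e0) (j := 32 + 4 * i) (hm' i hi) (by omega)
    norm_num at h1 ⊢
    omega

theorem norm_re_le {φ : ℝ} {J : ℂ} : (Complex.exp ((φ : ℂ) * Complex.I) * J).re ≤ ‖J‖ := by
  refine (Complex.re_le_norm _).trans ?_
  rw [norm_mul, Complex.norm_exp_ofReal_mul_I, one_mul]

/-! ### the parts of the threshold -/

/-- last cell -/
def TA (EL EE W : ℕ) : ℕ := ((EL + dg EE 0) * W) >>> 1 + 1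

/-- tail -/
def TL (S : ℕ) : ℕ := 2 * S / (3 <<< 200) + 1

/-- rest -/
def TR (W E D : ℕ) : ℕ := W * E * 48 / (D <<< 132) + 1

theorem part_last (EL EE W : ℕ) : ((EL : ℝ) / 2 ^ 40 + rE EE 0) / 64 * ((W : ℝ) / 2 ^ 40) ≤
    (TA EL EE W : ℝ) / 2 ^ 85 := by
  rw [le_div_iff₀ (by norm_num)]
  refine le_trans (le_of_eq ?_) (le_shr ((EL + dg EE 0) * W) 1)
  unfold rE
  push_cast
  ring

theorem part_tail (S : ℕ) : (S : ℝ) / (48 * (2 ^ 80 * 2 ^ 200)) ≤ (TL S : ℝ) / 2 ^ 85 := by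
  rw [le_div_iff₀ (by norm_num)]
  refine le_trans (le_of_eq ?_) (real_le_div (2 * S) (3 <<< 200) (by norm_num))
  rw [Nat.shiftLeft_eq]
  push_cast
  ring

theorem part_rest {W E D : ℕ} {δ : ℝ} (hδ : 0 < δ) (hD : (D : ℝ) = 48 * 2 ^ 23 * δ) :
    (E : ℝ) / 2 ^ 40 * ((W : ℝ) / 2 ^ 200) / δ ≤ (TR W E D : ℝ) / 2 ^ 85 := by
  rw [le_div_iff₀ (by norm_num)]
  have hDp : (0 : ℝ) < D := by rw [hD]; positivity
  have hDn : 0 < D := by exact_mod_cast hDp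
  have h := real_le_div (W * E * 48) (D <<< 132) (by rw [Nat.shiftLeft_eq]; positivity)
  refine le_trans (le_of_eq ?_) h
  rw [Nat.shiftLeft_eq]
  push_cast
  rw [hD]
  field_simp
  norm_num
  ring

/-- the final inequality -/
theorem fin_ineq {nf e S tail rest nd X Y v : ℝ} (hnf : 0 ≤ nf) (he : 0 ≤ e)
    (hnd : v ≤ nf * e * nd) (hS : nd ≤ S - tail - rest) (hX : e * (S - tail - rest) ≤ X)
    (hXY : X ≤ Y) (hY : nf * Y < v) : False := by
  have h1 : e * nd ≤ Y := (mul_le_mul_of_nonneg_left hS he).trans (hX.trans hXY)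
  have h2 := mul_le_mul_of_nonneg_left h1 hnf
  rw [← mul_assoc] at h2
  exact absurd (hnd.trans h2) (not_le.2 hY)

theorem cv_spec {t e1 : ℕ} {R : ℝ} (hR : 0 < R) (h1 : 1 / R ≤ (e1 : ℝ) / 1024)
    (hb : Nat.ble (e1 <<< 13) t = true) : 1 ≤ (t : ℝ) / 2 ^ 23 * R := by
  have h1' := Nat.le_of_ble_eq_true hb
  rw [Nat.shiftLeft_eq] at h1'
  have h2 : ((e1 * 2 ^ 13 : ℕ) : ℝ) ≤ t := by exact_mod_cast h1'
  push_cast at h2
  have h3 : (e1 : ℝ) / 1024 ≤ (t : ℝ) / 2 ^ 23 := by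
    rw [div_le_div_iff₀ (by norm_num) (by positivity)]
    linarith only [h2]
  have h4 := h1.trans h3
  rwa [div_le_iff₀ hR] at h4

/-- real form of the threshold inequality -/
theorem S_split (J0 J1 : ℕ) (p s n1 n2 Wa Wb : ℕ → ℝ) (EL E0 : ℝ) :
    unitS J0 J1 p s n1 n2 Wa Wb EL E0 = (∑ j ∈ range J0, p j * s j -
      ∑ j ∈ range J1, (n1 j * Wa (J0 + j) + n2 j * Wb (J0 + j))) - (EL + E0) / 64 * Wa 31 := rfl

theorem dg31 (t LD : ℕ) : dg (PK (wwD t LD) 32) 31 = wa t LD 31 :=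
  dg_PK (fun j _ => lt_of_le_of_lt (emM_le _) (by norm_num)) (by omega)

/-- weights of the tail, all nodes -/
theorem W_all {t LT m : ℕ} {cv : Bool} (hR : 1 < R) (h0 : (e0 : ℝ) / 1024 ≤ 1 / R)
    (hLT : LT = PK (fun i => lL e0 (32 + 4 * i)) (m + 1)) (hm : m ≤ 24) (hxR : Xn m < R)
    (hb : ∀ i < m + 1, e0 * (32 + 4 * i) < 32768)
    (hcv : cv = true → 1 ≤ (t : ℝ) / 2 ^ 23 * R) :
    (∀ i ≤ m, Wf R ((t : ℝ) / 2 ^ 23) (Xn i) ≤ (Wx t LT i : ℝ) / 2 ^ 200) ∧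
    (∀ i < m, (1 ≤ (t : ℝ) / 2 ^ 23 * R ∧
      Wf R ((t : ℝ) / 2 ^ 23) (Xn (i + 1)) ≤ (Wy t LT cv i : ℝ) / 2 ^ 200) ∨
      Wf R ((t : ℝ) / 2 ^ 23) (Xn i) ≤ (Wy t LT cv i : ℝ) / 2 ^ 200) := by
  have hW : ∀ i ≤ m, Wf R ((t : ℝ) / 2 ^ 23) (Xn i) ≤ (Wx t LT i : ℝ) / 2 ^ 200 := fun i hi =>
    Wx_spec hR h0 hLT (by omega) (by omega) (lt_of_le_of_lt (Xn_mono hi) hxR) hb
  refine ⟨hW, ?_⟩
  intro i hi
  cases cv with
  | true => exact Or.inl ⟨hcv rfl, hW (i + 1) (by omega)⟩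
  | false => exact Or.inr (hW i (by omega))

/-- **cells of type `A`** -/
theorem cellA_false (H : ColH k km A B N z w R σ) (hE : EpsH R e0 e1 HS LD) (h170 : e1 ≤ 170)
    {LT nd EL EE t t1 TH D : ℕ} {cv : Bool} (hcv : cv = Nat.ble (e1 <<< 13) t)
    (hTq : TailQ (qq (uu w)) N ((k : ℝ) / 16) R (muR ((k : ℝ) / 16) R (uu w)).re)
    (hLT : LT = PK (fun i => lL e0 (32 + 4 * i)) 25)
    (ht : (t : ℝ) / 2 ^ 23 ≤ TT k N R) (ht1 : TT k N R ≤ (t1 : ℝ) / 2 ^ 23)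
    (hD : D = 48 * t - k <<< 23) (hD1 : 1 ≤ D) (hnf : 1 ≤ t + ((k + 16) * e0) <<< 9)
    (hEL : GK ((k : ℝ) / 16) (muR ((k : ℝ) / 16) R (uu w)).re (xn 31) ≤ (EL : ℝ) / 2 ^ 40)
    (hEE : ∀ i ≤ 24, GK ((k : ℝ) / 16) (muR ((k : ℝ) / 16) R (uu w)).re (Xn i) ≤ rE EE i)
    (hnd : ((N : ℝ) + 1) / R * ‖∫ x in (0 : ℝ)..(3 / 5 * R), qq (uu w) x‖ < (nd : ℝ) / 2 ^ 40)
    (hTH : TH = TA EL EE (wa t LD 31) + TL (tlS k t cv LT 0 EE 24) +
      TR (Wx t LT 24) (dg EE 24) D + ndF k e0 t t1 (lU e1 32) nd)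
    (hL : LeafH (QR ((k : ℝ) / 16) R (uu w)) φ J0 J1 p n1 n2)
    (hT : (TH : ℝ) / 2 ^ 85 ≤
      ∑ j ∈ range J0, (p j : ℝ) / (32 * 2 ^ 40) * ((ssD t HS j : ℝ) / 2 ^ 40) -
      ∑ j ∈ range J1, ((n1 j : ℝ) / (32 * 2 ^ 40) * ((wa t LD (J0 + j) : ℝ) / 2 ^ 40) +
        (n2 j : ℝ) / (32 * 2 ^ 40) * ((wb t LD cv (J0 + j) : ℝ) / 2 ^ 40))) : False := by
  have hR := H.hR
  have hR6 : 6 ≤ R := by
    have h1 := hE.h1
    have h2 : (e1 : ℝ) ≤ 170 := by exact_mod_cast h170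
    have h3 : 1 / R ≤ 1 / 6 := h1.trans (by linarith only [h2])
    exact le_of_one_div_le_one_div (by linarith only [hR]) h3
  have hR1 : 1 < R := by linarith only [hR6]
  have hRp : 0 < R := by linarith only [hR6]
  have hK0 : (0 : ℝ) ≤ (k : ℝ) / 16 := div_nonneg (Nat.cast_nonneg _) (by norm_num)
  have he0 : e0 ≤ 170 := hE.le01.trans h170
  have hX24 : Xn 24 < R := by
    have h2 : Xn 24 = 4 := by unfold Xn; norm_num
    linarith only [hR6, h2]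
  have hbd : ∀ i < 25, e0 * (32 + 4 * i) < 32768 := fun i hi =>
    lt_of_le_of_lt (Nat.mul_le_mul he0 (by omega : 32 + 4 * i ≤ 128)) (by norm_num)
  have hW := W_all (m := 24) (cv := cv) (t := t) hR1 hE.h0 hLT le_rfl hX24 hbd
    (fun hb => cv_spec hRp hE.h1 (hcv ▸ hb))
  have hE00 : GK ((k : ℝ) / 16) (muR ((k : ℝ) / 16) R (uu w)).re 1 ≤ rE EE 0 := by
    have h1 := hEE 0 (by omega)
    rwa [Xn_zero] at h1
  have hcomb := comb_of H hE ht hL hEL hE00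
  rw [← hcv] at hcomb
  have hδ : (D : ℝ) = 48 * 2 ^ 23 * ((t : ℝ) / 2 ^ 23 - (k : ℝ) / 16 / 3) := by
    rw [hD, Nat.cast_sub (by omega), Nat.shiftLeft_eq]
    push_cast
    ring
  have hδ0 : 0 < (t : ℝ) / 2 ^ 23 - (k : ℝ) / 16 / 3 := by
    have h1 : (0 : ℝ) < D := by exact_mod_cast hD1
    rw [hδ] at h1
    exact pos_of_mul_pos_right h1 (by norm_num)
  have htailA : ∀ x : ℝ, 1 ≤ x → x ≤ 3 / 5 * R → ‖qq (uu w) x‖ ≤
      Wf R (TT k N R) x * GK ((k : ℝ) / 16) (muR ((k : ℝ) / 16) R (uu w)).re x :=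
    fun x hx1 hx2 => gaA (qq_cont _) hTq hR6 H.mu_abs hK0 hx1 hx2
  have hmain := combA hcomb (by linarith only [hR6]) (y := 3 / 5 * R) (by linarith only [hR6]) (by linarith only [hR6])
    htailA (sub_pos.1 hδ0) hEE (Wl := fun i => (Wx t LT i : ℝ) / 2 ^ 200)
    (Wr := fun i => (Wy t LT cv i : ℝ) / 2 ^ 200) hW.1 hW.2
  have hJ := hL.hJ
  have hl0 : 0 ≤ el R (xn J0) := el_nonneg hRp (xn_nonneg _) ((xn_lt (by omega)).trans hR1)
  have hfin := ndF_spec (v := nd) ht ht1 hl0 (el_le_L1 hE hR1 (by omega : J0 ≤ 31)) hnf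
    (H.nf_ge ht hE.h0)
  have hg : (fun _ : ℕ => (1 : ℝ)) = fun i => (gx k 0 i : ℝ) / 2 ^ 40 := by
    funext i
    unfold gx dg
    norm_num
  have htl := tlS_eq k t cv LT 0 EE 24
  rw [← hg] at htl
  have hnfp : (0 : ℝ) ≤ ((N : ℝ) + 1) / R := div_nonneg (by linarith only [Nat.cast_nonneg (α := ℝ) N]) hRp.le
  refine fin_ineq hnfp (Real.exp_pos _).le hfin ?_ hmain norm_re_le hnd
  rw [S_split, ← htl]
  have q1 := part_last EL EE (wa t LD 31)
  have q2 := part_tail (tlS k t cv LT 0 EE 24)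
  have q3 := part_rest (W := Wx t LT 24) (E := dg EE 24) hδ0 hδ
  have hTHr : (TH : ℝ) / 2 ^ 85 = (TA EL EE (wa t LD 31) : ℝ) / 2 ^ 85 +
        (TL (tlS k t cv LT 0 EE 24) : ℝ) / 2 ^ 85 + (TR (Wx t LT 24) (dg EE 24) D : ℝ) / 2 ^ 85 +
        (ndF k e0 t t1 (lU e1 32) nd : ℝ) / 2 ^ 85 := by
    rw [hTH, Nat.cast_add, Nat.cast_add, Nat.cast_add, add_div, add_div, add_div]
  rw [hTHr] at hT
  have hrE : rE EE 24 = (dg EE 24 : ℝ) / 2 ^ 40 := rfl
  rw [hrE]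
  clear hTH hTHr hD hnf hcomb hmain hfin htailA hEE hEL hTq hL hbd hW hLT htl hg hδ hD1
  linarith only [hT, q1, q2, q3]

/-- **cells of type `B`** -/
theorem cellB_false (H : ColH k km A B N z w R σ) (hE : EpsH R e0 e1 HS LD)
    {LT GA nt LR EL EE t t1 TH V U : ℕ} {cv : Bool} (hcv : cv = Nat.ble (e1 <<< 13) t)
    (hTq : TailQ (qq (uu w)) N ((k : ℝ) / 16) R (muR ((k : ℝ) / 16) R (uu w)).re)
    (hnt : nt ≤ 24) (h5 : 5 * e1 * (8 + nt) ≤ 24576) (hLR : lrOK e1 LR = true)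
    (hLT : LT = PK (fun i => lL e0 (32 + 4 * i)) (nt + 1)) (hGA : GA = PK (gaF e1) nt)
    (ht0 : t = t0F k km e0 e1 B) (ht1 : TT k N R ≤ (t1 : ℝ) / 2 ^ 23)
    (hnf : 1 ≤ t + ((k + 16) * e0) <<< 9)
    (hEL : GK ((k : ℝ) / 16) (muR ((k : ℝ) / 16) R (uu w)).re (xn 31) ≤ (EL : ℝ) / 2 ^ 40)
    (hEE : ∀ i ≤ 24, GK ((k : ℝ) / 16) (muR ((k : ℝ) / 16) R (uu w)).re (Xn i) ≤ rE EE i)
    (hvt : ((N : ℝ) + 1) / R * ∫ x in (Xn nt)..R, ‖qq (uu w) x‖ ≤ (V : ℝ) / 2 ^ 40)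
    (hU : U = bif Nat.ble 424 e1 then ndU (n0F k t e1) 29 12 LR
        else ndU (n0F k t e1) 1024 e1 LR)
    (hTH : TH = TA EL EE (wa t LD 31) + TL (tlS k t cv LT GA EE nt) +
      ndF k e0 t t1 (lU e1 32) (V + U))
    (hL : LeafH (QR ((k : ℝ) / 16) R (uu w)) φ J0 J1 p n1 n2)
    (hT : (TH : ℝ) / 2 ^ 85 ≤
      ∑ j ∈ range J0, (p j : ℝ) / (32 * 2 ^ 40) * ((ssD t HS j : ℝ) / 2 ^ 40) -
      ∑ j ∈ range J1, ((n1 j : ℝ) / (32 * 2 ^ 40) * ((wa t LD (J0 + j) : ℝ) / 2 ^ 40) +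
        (n2 j : ℝ) / (32 * 2 ^ 40) * ((wb t LD cv (J0 + j) : ℝ) / 2 ^ 40))) : False := by
  have hR := H.hR
  have hR1 : 1 < R := by linarith only [hR]
  have hRp : 0 < R := by linarith only [hR]
  have hK0 : (0 : ℝ) ≤ (k : ℝ) / 16 := div_nonneg (Nat.cast_nonneg _) (by norm_num)
  have ht : (t : ℝ) / 2 ^ 23 ≤ TT k N R := by
    rw [ht0]
    exact H.t0_le hE.h0 hE.h1
  have he1r : (0 : ℝ) < e1 := by
    have h1 : (0 : ℝ) < (e1 : ℝ) / 1024 := lt_of_lt_of_le (by positivity) hE.h1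
    linarith only [h1]
  have hXR : Xn nt ≤ 3 / 5 * R := by
    have h1 : ((5 * e1 * (8 + nt) : ℕ) : ℝ) ≤ ((24576 : ℕ) : ℝ) := by exact_mod_cast h5
    push_cast at h1
    have h2 := hE.h1
    rw [div_le_div_iff₀ hRp (by norm_num)] at h2
    unfold Xn
    have h3 : (e1 : ℝ) * (5 * (8 + nt)) ≤ e1 * (24 * R) := by linarith only [h1, h2]
    have h4 := le_of_mul_le_mul_left h3 he1r
    linarith only [h4]
  have hXlt : Xn nt < R := by linarith only [hR, hXR]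
  have hbd : ∀ i < nt + 1, e0 * (32 + 4 * i) < 32768 := by
    intro i hi
    have h1 : e0 * (32 + 4 * i) ≤ e1 * (4 * (8 + nt)) :=
      Nat.mul_le_mul hE.le01 (by omega)
    have h2 : 5 * (e1 * (4 * (8 + nt))) = 4 * (5 * e1 * (8 + nt)) := by ring
    omega
  have hW := W_all (m := nt) (cv := cv) (t := t) hR1 hE.h0 hLT hnt hXlt hbd
    (fun hb => cv_spec hRp hE.h1 (hcv ▸ hb))
  have hE00 : GK ((k : ℝ) / 16) (muR ((k : ℝ) / 16) R (uu w)).re 1 ≤ rE EE 0 := by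
    have h1 := hEE 0 (by omega)
    rwa [Xn_zero] at h1
  have hcomb := comb_of H hE ht hL hEL hE00
  rw [← hcv] at hcomb
  have hgx : ∀ i < nt, gx k GA i = gFac k e1 i := by
    intro i hi
    have h1 : dg GA i = gaF e1 i := by
      rw [hGA]
      exact dg_PK (fun j hj => gaF_lt hE.hle (by omega)) hi
    unfold gx gFac
    rw [h1]
  have htailB : ∀ i < nt, ∀ x : ℝ, Xn i ≤ x → x ≤ Xn (i + 1) → ‖qq (uu w) x‖ ≤
      (fun i => (gx k GA i : ℝ) / 2 ^ 40) i *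
        (Wf R (TT k N R) x * GK ((k : ℝ) / 16) (muR ((k : ℝ) / 16) R (uu w)).re x) := by
    intro i hi x hx1 hx2
    simp only
    rw [hgx i hi]
    exact gaB (qq_cont _) hTq hR1 H.mu_abs rfl hE.h1
      (lt_of_le_of_lt hE.hle (by norm_num)) h5 hi hx1 hx2
  have hmain := combB hcomb hXlt (g := fun i => (gx k GA i : ℝ) / 2 ^ 40)
    (fun i _ => div_nonneg (Nat.cast_nonneg _) (by norm_num)) htailB
    (fun i hi => hEE i (by omega)) (Wl := fun i => (Wx t LT i : ℝ) / 2 ^ 200)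
    (Wr := fun i => (Wy t LT cv i : ℝ) / 2 ^ 200) (fun i hi => hW.1 i hi.le) hW.2
  have hJ := hL.hJ
  have hl0 : 0 ≤ el R (xn J0) := el_nonneg hRp (xn_nonneg _) ((xn_lt (by omega)).trans hR1)
  -- the need
  have hN0 := H.n0_le (e1 := e1) ht hE.h1
  have hN06 : 6 ≤ n0F k t e1 := by
    unfold n0F
    rw [ev_eq]
    omega
  have hneed : ((N : ℝ) + 1) / R * ‖∫ x in (0 : ℝ)..R, qq (uu w) x‖ < (U : ℝ) / 2 ^ 40 := by
    unfold lrOK at hLR
    cases hb : Nat.ble 424 e1 with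
    | true =>
      rw [hb, cond_true] at hLR hU
      rw [hU]
      have h1 := need H.cfg (N₀ := n0F k t e1) (R₀ := 29 / 12) hN06 hN0 le_rfl hR (by
        have : (6 : ℝ) ≤ (n0F k t e1 : ℝ) := by exact_mod_cast hN06
        linarith only [this])
      have h2 := ndU_sound (N := n0F k t e1) (P := 29) (Q := 12) (LR := LR) (by omega)
        (by norm_num) (by norm_num) (by omega) (by
          have := Nat.le_of_ble_eq_true hLR
          omega)
      refine lt_of_lt_of_le h1 (le_trans (le_of_eq ?_) h2)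
      norm_num
    | false =>
      rw [hb, cond_false] at hLR hU
      rw [hU]
      have he1' : e1 ≤ 423 := by
        by_contra hcon
        have h1 : 424 ≤ e1 := by omega
        have h2 := Nat.ble_eq_true_of_le h1
        rw [hb] at h2
        exact Bool.noConfusion h2
      have he1n : 0 < e1 := by exact_mod_cast he1r
      have hR0 : (29 : ℝ) / 12 ≤ (1024 : ℝ) / e1 := by
        have h1 : (e1 : ℝ) ≤ 423 := by exact_mod_cast he1'
        rw [div_le_div_iff₀ (by norm_num) he1r]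
        linarith only [h1]
      have hRR : (1024 : ℝ) / e1 ≤ R := by
        have h2 := hE.h1
        rw [div_le_div_iff₀ hRp (by norm_num)] at h2
        rw [div_le_iff₀ he1r]
        linarith only [h2]
      have hN00 : 2048 ≤ (n0F k t e1 + 2) * e1 := by
        unfold n0F
        rw [ev_eq]
        have hD : 0 < 8192 * e1 := by omega
        have h1 : (k * e1) <<< 9 + t ≤ ((k * e1) <<< 9 + t + (8192 * e1 - 1)) / (8192 * e1) *
            (8192 * e1) := by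
          have h3 := Nat.div_add_mod ((k * e1) <<< 9 + t + (8192 * e1 - 1)) (8192 * e1)
          have h4 := Nat.mod_lt ((k * e1) <<< 9 + t + (8192 * e1 - 1)) hD
          rw [mul_comm] at h3
          omega
        have h2 : 16777216 - ((k + 32) * e1) <<< 9 ≤ t := by
          rw [ht0]
          unfold t0F
          rw [ev_eq, ev_eq, ev_eq, ev_eq]
          omega
        generalize ((k * e1) <<< 9 + t + (8192 * e1 - 1)) / (8192 * e1) = q at h1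
        have h3 : q ≤ 6 + (q - 6) := by omega
        have h4 : (q + 2) * e1 ≤ (6 + (q - 6) + 2) * e1 := Nat.mul_le_mul_right _ (by omega)
        refine le_trans ?_ h4
        rw [Nat.shiftLeft_eq] at h1 h2
        have h5 : (k + 32) * e1 * 2 ^ 9 = k * e1 * 2 ^ 9 + 16384 * e1 := by ring
        rw [h5] at h2
        have h6 : q * (8192 * e1) = 8192 * (q * e1) := by ring
        rw [h6] at h1
        have h7 : (q + 2) * e1 = q * e1 + 2 * e1 := by ring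
        rw [h7]
        omega
      have hN00r : (2048 : ℝ) ≤ ((n0F k t e1 : ℝ) + 2) * e1 := by exact_mod_cast hN00
      have h20 : 2 * ((1024 : ℝ) / e1 - 1) ≤ (n0F k t e1 : ℝ) := by
        have h1 : (1024 : ℝ) / e1 ≤ ((n0F k t e1 : ℝ) + 2) / 2 := by
          rw [div_le_iff₀ he1r]
          linarith only [hN00r]
        linarith only [h1]
      have h1 := need H.cfg (N₀ := n0F k t e1) (R₀ := 1024 / e1) hN06 hN0 hR0 hRR h20
      have h2 := ndU_sound (N := n0F k t e1) (P := 1024) (Q := e1) (LR := LR) (by omega)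
        he1n (by omega) (by
          have h3 : 2048 ≤ n0F k t e1 * e1 + 2 * e1 := by
            have : (n0F k t e1 + 2) * e1 = n0F k t e1 * e1 + 2 * e1 := by ring
            omega
          have h4 : e1 * n0F k t e1 = n0F k t e1 * e1 := mul_comm _ _
          rw [h4]
          have h5 : 6 * e1 ≤ n0F k t e1 * e1 := Nat.mul_le_mul_right _ hN06
          omega) (by
          have := Nat.le_of_ble_eq_true hLR
          have h3 : 1024 * 1099511627776 = 1125899906842624 := by norm_num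
          rw [h3]
          exact this)
      exact lt_of_lt_of_le h1 (by exact_mod_cast h2)
  clear hU
  have hfin := ndF_spec (v := V + U) ht ht1 hl0 (el_le_L1 hE hR1 (by omega : J0 ≤ 31)) hnf
    (H.nf_ge ht hE.h0)
  have htl := tlS_eq k t cv LT GA EE nt
  have hnfp : (0 : ℝ) ≤ ((N : ℝ) + 1) / R := div_nonneg (by linarith only [Nat.cast_nonneg (α := ℝ) N]) hRp.le
  have hint : ‖∫ x in (0 : ℝ)..(Xn nt), qq (uu w) x‖ ≤ ‖∫ x in (0 : ℝ)..R, qq (uu w) x‖ +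
      ∫ x in (Xn nt)..R, ‖qq (uu w) x‖ := by
    have hc : Continuous (qq (uu w)) := qq_cont _
    have h1 := intervalIntegral.integral_add_adjacent_intervals (μ := volume)
      (hc.intervalIntegrable 0 (Xn nt)) (hc.intervalIntegrable (Xn nt) R)
    have h2 : ∫ x in (0 : ℝ)..(Xn nt), qq (uu w) x = (∫ x in (0 : ℝ)..R, qq (uu w) x) -
        ∫ x in (Xn nt)..R, qq (uu w) x := by
      rw [← h1]
      ring
    rw [h2]
    exact (norm_sub_le _ _).trans (add_le_add le_rfl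
      (intervalIntegral.norm_integral_le_integral_norm hXlt.le))
  have hlast : ((N : ℝ) + 1) / R * (‖∫ x in (0 : ℝ)..R, qq (uu w) x‖ +
      ∫ x in (Xn nt)..R, ‖qq (uu w) x‖) < ((V + U : ℕ) : ℝ) / 2 ^ 40 := by
    have h1 : ((V + U : ℕ) : ℝ) / 2 ^ 40 = (U : ℝ) / 2 ^ 40 + (V : ℝ) / 2 ^ 40 := by
      rw [Nat.cast_add]
      ring
    rw [mul_add, h1]
    exact add_lt_add_of_lt_of_le hneed hvt
  refine fin_ineq (rest := 0) hnfp (Real.exp_pos _).le hfin ?_ (by rw [sub_zero]; exact hmain)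
    (norm_re_le.trans hint) hlast
  rw [S_split, ← htl]
  have q1 := part_last EL EE (wa t LD 31)
  have q2 := part_tail (tlS k t cv LT GA EE nt)
  have hTHr : (TH : ℝ) / 2 ^ 85 = (TA EL EE (wa t LD 31) : ℝ) / 2 ^ 85 +
        (TL (tlS k t cv LT GA EE nt) : ℝ) / 2 ^ 85 +
        (ndF k e0 t t1 (lU e1 32) (V + U) : ℝ) / 2 ^ 85 := by
    rw [hTH, Nat.cast_add, Nat.cast_add, add_div, add_div]
  rw [hTHr] at hT
  clear hTH hTHr hnf hcomb hmain hfin htailB hEE hEL hTq hL hbd hW hLT htl hLR ht0 hgx h5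
  linarith only [hT, q1, q2]

end

end Pool.Agent.Lib.MP_af3a4a_an.P1.H28
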